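import Pool.Agent.R871.SG.MvB

/-!
MP_1209e6_ag, Q1: varieties dominated by an affine space through a holomorphic map of slow growth.
-/

set_option autoImplicit false

namespace Pool.Agent.Results.MP_1209e6_ag.DominatingSlowMaps

open Pool.Agent.R871.SG MvPolynomial Set

/-- Let `X ⊂ ℙ(ℂ^σ)` be the projective variety `{F = 0}`, and `p` a number. There is a function `φ`
with `φ r / log r → ∞` for `r → ∞`, such that for all numbers `q` (for instance the dimension of `X`)
the following are equivalent.

(1) There is an algebraic map from the affine space `𝔸^p` to `X`, given by homogeneous coordinates which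
are polynomials, of rank at least `q` at some point. (For `q` the dimension of an irreducible `X`: the
variety `X` is unirational, with a dominating map from `𝔸^p`.)

(2) There is a holomorphic map from `ℂ^p` to `X`, given by entire homogeneous coordinates `f` with
`log ‖f z‖ ≤ φ r` on the polydisc of radius `r`, for arbitrarily large `r`, of rank at least `q` at some
point. -/
theorem result {σ ι : Type} [Fintype σ] (p : ℕ) (F : ι → MvPolynomial σ ℂ) :
    ∃ φ : ℝ → ℝ, Grows φ ∧ ∀ q : ℕ,
    (∃ P : σ → MvPolynomial (Fin p) ℂ, (∀ z i, eval (mv P z) (F i) = 0) ∧ ∃ z, Rk (mv P) z q) ↔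
    ∃ f : (Fin p → ℂ) → σ → ℂ, AnalyticOnNhd ℂ f univ ∧ (∀ z i, eval (f z) (F i) = 0) ∧
      SlowM φ f ∧ ∃ z, Rk f z q :=
  rank_iff p F

end Pool.Agent.Results.MP_1209e6_ag.DominatingSlowMaps
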