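import Pool.Agent.R302.SA.M4

set_option autoImplicit false

/-!
# MP_16b0ee_an: the strong Marshall bound for small scale averages

Let `h = log ψ'`, `ψ` in the class `Σ`, and suppose that `(|z|² - 1) z h'(z)` lies in the disc with
centre `c` and radius `σ(|z|) |z|`, for some constant `c` and some continuous function `σ` of the
distance from the boundary. (For every `ψ` in `Σ` this holds with `c = -2` and `σ = 4`.)
The integral of the question is bounded for the exponent `a` as soon as the AVERAGE of `σ²` over the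
logarithmic scales between `1` and `R - 1` is less than `1 / a`: for `σ₀ = 1` the full range
`0 < a < 1` of the question is obtained, the radius being as large as `4` at one scale in `16`. The
centre `c` is arbitrary, so the values may be larger than `1` everywhere. The second part: the
condition is needed near the boundary only.

The proof. Let `H(v) = h(1/v)`. The differential inequality of Hardy and Stein for the mean of
`exp (Re (conj t H))` over circles is solved; `|P|² = |P - c|² + 2 Re (conj c P) - |c|²` and the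
linear term is the derivative of the mean. Gaussian averages over `t` give the integral.
-/

namespace Pool.Agent.Results.MP_16b0ee_an.ScaleAverages

/-- The point `r e^{iθ}`. -/
noncomputable def circ (r θ : ℝ) : ℂ := (r : ℂ) * Complex.exp ((θ : ℂ) * Complex.I)

/-- `ψ ∈ Σ` and `h = log ψ'` (the branch vanishing at infinity), exactly as in the problem. -/
def IsSigma (ψ h : ℂ → ℂ) : Prop :=
  DifferentiableOn ℂ ψ {z : ℂ | 1 < ‖z‖} ∧
  Set.InjOn ψ {z : ℂ | 1 < ‖z‖} ∧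
  (∃ b : ℂ, Filter.Tendsto (fun z => ψ z - z) (Bornology.cobounded ℂ) (nhds b)) ∧
  DifferentiableOn ℂ h {z : ℂ | 1 < ‖z‖} ∧
  (∀ z : ℂ, 1 < ‖z‖ → Complex.exp (h z) = deriv ψ z) ∧
  Filter.Tendsto h (Bornology.cobounded ℂ) (nhds 0)

/-- The integral of Q1. -/
noncomputable def marshall (a R : ℝ) (h : ℂ → ℂ) : ℝ :=
  (1 / (2 * Real.pi)) * ∫ θ in (0:ℝ)..(2 * Real.pi),
    Real.exp (a * ‖h (circ R θ)‖ ^ 2 / Real.log (R ^ 2 / (R ^ 2 - 1)))

/-- The quantity `(|z|² - 1) z h'(z)`. -/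
noncomputable def pre (h : ℂ → ℂ) (z : ℂ) : ℂ := ((‖z‖ ^ 2 - 1 : ℝ) : ℂ) * (z * deriv h z)

theorem result :
    (∀ a σ₀ K : ℝ, 0 < a → a * σ₀ ^ 2 < 1 → ∃ C : ℝ,
      ∀ (R : ℝ) (c : ℂ) (σ : ℝ → ℝ) (ψ h : ℂ → ℂ), 1 < R → R < 2 → IsSigma ψ h → ‖c‖ ≤ K →
      ContinuousOn σ (Set.Ioi 1) → (∀ z : ℂ, 1 < ‖z‖ → ‖pre h z - c‖ ≤ σ ‖z‖ * ‖z‖) →
      ∫ r in R..2, σ r ^ 2 / (r - 1) ≤ σ₀ ^ 2 * Real.log (1 / (R - 1)) + K →
      marshall a R h ≤ C) ∧
    (∀ a σ δ : ℝ, 0 < a → 0 ≤ σ → a * σ ^ 2 < 1 → 0 < δ → ∃ C : ℝ,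
      ∀ (R : ℝ) (c : ℂ) (ψ h : ℂ → ℂ), 1 < R → IsSigma ψ h →
      (∀ z : ℂ, 1 < ‖z‖ → ‖z‖ < 1 + δ → ‖pre h z - c‖ ≤ σ * ‖z‖) → marshall a R h ≤ C) := by
  have S : ∀ {ψ h : ℂ → ℂ}, IsSigma ψ h → Pool.Agent.R250.MC.IsSig ψ h := fun h => h
  constructor
  · intro a σ₀ K ha haσ
    obtain ⟨C, hC⟩ := Pool.Agent.R302.SA.marshall_avg (K := K) ha haσ
    exact ⟨C, fun R c σ ψ h hR hR2 H hc hσ hz hI =>
      hC R c σ _ h hR hR2 (S H).hol (S H).sg hc hσ hz hI⟩
  · intro a σ δ ha hσ haσ hδ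
    obtain ⟨C, hC⟩ := Pool.Agent.R250.MC.marshall_disc ha hσ haσ hδ
    exact ⟨C, fun R c ψ h hR H hz => hC R c _ h hR (S H).hol (S H).sg hz⟩

end Pool.Agent.Results.MP_16b0ee_an.ScaleAverages
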