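import Pool.Agent.TH814.GD.Ax

/-!
# A theorem of Ax-Schanuel type for the Gamma function, complete in codimension one

Let `f_1, …, f_n` be nonconstant analytic functions on a connected open subset `Ω` of a complex
vector space of finite dimension, no two of which differ by an integer, and let `r` be the dimension
of the span of their derivatives at some point of `Ω`. Then at least `min (n, r + 1) + r` of the
`2 n` functions `f_1, …, f_n, Γ(f_1), …, Γ(f_n)` are algebraically independent over `ℂ`. For
`r ≥ n - 1` this is the bound `n + r` of the theorem of Ax on the exponential function.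
-/

set_option autoImplicit false

namespace Pool.Agent.Results.MP_26ad15_nt.AxSchanuelCodimensionOne

open Module

/-- The `2 n` values `f_1(x), …, f_n(x)` and `Γ(f_1(x)), …, Γ(f_n(x))`. -/
noncomputable def value {E : Type} {n : ℕ} (f : Fin n → E → ℂ) (x : E) : Fin n ⊕ Fin n → ℂ :=
  Sum.elim (fun i => f i x) (fun i => Complex.Gamma (f i x))

/-- **Ax-Schanuel for `Γ` in codimension one.** Let `E` be a complex vector space of finite
dimension, `Ω` a connected open subset and `f 1, …, f n` nonconstant analytic functions on `Ω`, no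
two of which differ by an integer constant. Let `r` be the dimension of the span of the derivatives
of the `f i` at some point of `Ω`. Then there are `min n (r + 1) + r` of the `2 n` functions
`f i`, `Γ (f i)` which satisfy no algebraic relation over `ℂ`: for every nonzero polynomial `P` there
is a point of `Ω` at which no `f i` is a pole of `Γ` and `P` does not vanish. -/
theorem result (E : Type) [NormedAddCommGroup E] [NormedSpace ℂ E] [FiniteDimensional ℂ E]
    (n r : ℕ) (Ω : Set E) (f : Fin n → E → ℂ) (hΩ : IsOpen Ω) (hp : IsPreconnected Ω)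
    (hf : ∀ i, AnalyticOnNhd ℂ (f i) Ω)
    (hne : ∀ i, ∀ v : ℂ, ¬ ∀ x ∈ Ω, f i x = v)
    (hd : ∀ i j, i ≠ j → ∀ m : ℤ, ¬ ∀ x ∈ Ω, f i x = f j x + m)
    (hr : ∃ x ∈ Ω, finrank ℂ (Submodule.span ℂ (Set.range fun i => fderiv ℂ (f i) x)) = r) :
    ∃ e : Fin (min n (r + 1) + r) → Fin n ⊕ Fin n, Function.Injective e ∧
      ∀ P : MvPolynomial (Fin (min n (r + 1) + r)) ℂ, P ≠ 0 →
        ∃ x ∈ Ω, (∀ i, ∀ m : ℕ, f i x ≠ -m) ∧
          MvPolynomial.eval (fun k => value f x (e k)) P ≠ 0 :=
  Pool.Agent.TH814.GD.ax hΩ hp hf hne hd hr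

end Pool.Agent.Results.MP_26ad15_nt.AxSchanuelCodimensionOne
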