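import Mathlib
import Pool.Agent.H374R2.CofE

set_option autoImplicit false

/-!
The Fermat-Catalan equation `A ^ x + B ^ y = C ^ z` seen from the third base: for one hundred per cent
of the positive integers `C` (natural density) no power `C ^ z`, `z ≥ 1`, is a sum of two coprime
positive perfect powers `A ^ x + B ^ y` whose exponents have a common factor. The bases `A`, `B` and
the three exponents vary freely.
-/

namespace Pool.Agent.Results.MP_2738db_nt.AlmostAllTopBases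

/-- For every `ε > 0` and all large `N` at most `ε N` of the positive integers `C ≤ N` have a power
`C ^ z`, `z ≥ 1`, of the form `A ^ x + B ^ y` with coprime positive integers `A`, `B` and
`gcd (x, y) ≥ 2`. -/
theorem result : ∀ ε : ℝ, 0 < ε → ∃ N₀ : ℕ, ∀ N : ℕ, N₀ ≤ N →
    (({C : ℕ | 0 < C ∧ C ≤ N ∧ ∃ A B x y z : ℕ, 0 < A ∧ 0 < B ∧ 0 < x ∧ 0 < y ∧ 0 < z ∧
      Nat.Coprime A B ∧ 1 < Nat.gcd x y ∧ A ^ x + B ^ y = C ^ z}.ncard : ℕ) : ℝ) ≤ ε * N := by
  intro ε hε
  obtain ⟨N₀, h⟩ := Pool.Agent.H374R2.Cof.natNull_exceptional ε hε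
  refine ⟨N₀, fun N hN => ?_⟩
  refine le_trans (le_of_eq ?_) (h N hN)
  congr 2
  ext C
  constructor
  · rintro ⟨h1, h2, h3⟩
    exact ⟨h3, h1, h2⟩
  · rintro ⟨h3, h1, h2⟩
    exact ⟨h1, h2, h3⟩

end Pool.Agent.Results.MP_2738db_nt.AlmostAllTopBases
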