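import Mathlib
import Pool.Agent.R847.HG.Curve

/-!
# MP_295d38_ag: a gap principle for all curves and all endomorphisms of projective space over number fields

Let `K` be a number field, `f = [f_0 : … : f_N]` an endomorphism of `ℙ^N` over `K` of degree `d ≥ 2`
and `V ⊂ ℙ^N` a closed irreducible subset over `K` of dimension at most one. There is no other
condition on `f` and `V`: `V` may be singular, may meet the critical locus and may contain infinitely
many periodic points of `f`.

**Theorem.** For every point `a` of `ℙ^N(K)`

* either the return set `{n : f^n(a) ∈ V}` is a finite union of arithmetic progressions (the assertion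
  of the Dynamical Mordell-Lang conjecture holds for `V`, `f`, `a`),
* or there is a constant `C` such that `n ≥ 2 m - C` for any two elements `m < n` of the return set.

So a return set which is not a finite union of arithmetic progressions has at most
`log X / log 2 + O(1)` elements up to `X`.

The gap principle `MP_b15c9e_ag.GapPrinciple` of the starting files needs that only finitely many
points are trapped in `V` (that is, return at all times `0, k, 2k, …` for some `k`) and that the map is
etale along their orbits; curves with infinitely many periodic points, and ramified
periodic points, are not covered by it.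

**The proof** (`Pool.Agent.R847.HG.curve_gap`, a helper theorem of the starting files which was not
handed in before). If `f^k(V) ⊆ V` for some `k ≥ 1` then the return set is closed under adding `k`, so
it is a finite union of progressions; the same holds if `a` is preperiodic. Otherwise the canonical
height grows: `h(f^n(a)) ≥ c d^n` with `c > 0`. Let `m < n` be return times, `k = n - m` and
`x = f^m(a)`. Then `x` lies on `V` and on `f^{-k}(V)`, whose intersection is finite since `V` is
irreducible. It is cut out on `V` by forms of degree `e d^k`, whose coefficients have height
`O(d^k)`. An arithmetic theorem of Bezout for curves, in an elementary form by resultants, gives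
`h(x) ≤ C' d^k`. Therefore `c d^m ≤ C' d^{n-m}`.
-/

set_option autoImplicit false

open MvPolynomial

namespace Pool.Agent.Results.MP_295d38_ag.CurveHeightGap

/-- The self-map of `K^{N+1}` given by `N + 1` polynomials. -/
noncomputable def coneMap {K : Type} [Field K] {N : ℕ}
    (f : Fin (N + 1) → MvPolynomial (Fin (N + 1)) K) (x : Fin (N + 1) → K) : Fin (N + 1) → K :=
  fun i => eval x (f i)

/-- The return set of the point `[a]` to the closed set of the common zeros of the members of `S`. -/
def returnSet {K : Type} [Field K] {N : ℕ} (f : Fin (N + 1) → MvPolynomial (Fin (N + 1)) K)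
    (S : Set (MvPolynomial (Fin (N + 1)) K)) (a : Fin (N + 1) → K) : Set ℕ :=
  {n | ∀ g ∈ S, eval ((coneMap f)^[n] a) g = 0}

/-- A finite union of arithmetic progressions `{b + k n}`, where `k = 0` is allowed. -/
def FiniteUnionAP (A : Set ℕ) : Prop :=
  ∃ T : Finset (ℕ × ℕ), A = {n : ℕ | ∃ q ∈ T, ∃ m : ℕ, n = q.1 * m + q.2}

/-- **Gap principle for curves.** Let `K` be a number field, let `f_0, …, f_N` be forms of degree
`d ≥ 2` over `K` without common zeros over the algebraic closure, and let the forms in `S` generate a
prime ideal such that its zero set, as a cone, has dimension at most two (so it is the cone over an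
irreducible curve, or a point). Then each return set of a point is a finite union of arithmetic
progressions or satisfies `2 m ≤ n + C` for all its elements `m < n`. -/
theorem result (K : Type) [Field K] [NumberField K] (N d : ℕ) (hd : 2 ≤ d)
    (f : Fin (N + 1) → MvPolynomial (Fin (N + 1)) K) (hf : ∀ i, (f i).IsHomogeneous d)
    (h0 : ∀ x : Fin (N + 1) → AlgebraicClosure K, (∀ i, aeval x (f i) = 0) → x = 0)
    (S : Set (MvPolynomial (Fin (N + 1)) K)) (hS : ∀ g ∈ S, ∃ e : ℕ, g.IsHomogeneous e)
    (hprime : (Ideal.span S).IsPrime)
    (hdim : Algebra.trdeg K (MvPolynomial (Fin (N + 1)) K ⧸ Ideal.span S) ≤ 2)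
    (a : Fin (N + 1) → K) (ha : a ≠ 0) :
    FiniteUnionAP (returnSet f S a) ∨
      ∃ C : ℕ, ∀ m ∈ returnSet f S a, ∀ n ∈ returnSet f S a, m < n → 2 * m ≤ n + C :=
  Pool.Agent.R847.HG.curve_gap hd f hf h0 S hS hprime hdim a ha

end Pool.Agent.Results.MP_295d38_ag.CurveHeightGap
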