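import Pool.Agent.X32.Uni.Short3

/-!
# Exact patterns of almost prime values of polynomials in intervals of length `X ^ ε`

Let `f_1, …, f_m` (`m ≥ 1`) be nonconstant integer polynomials whose product has no fixed prime divisor (for example
`x² + 1` and `x² + 3`), and let `G` be a finite set of polynomials, each with a complex zero that is not a zero of any `f_l` (for
example `x² + 2`, `x² ± 4`, `(x ± 1)² + 1`, `(x ± 1)² + 3`), and `ε > 0`.  There are `C`, `t` and `0 < κ ≤ K` with the following
property.  Call `x ≤ X` good if each `f_l(x)` is a product of at most `t deg f_l` primes, larger than `X ^ (1 / t)`, and each `g(x)`,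
`g ∈ G`, is divisible by a prime `≤ C`.  Then EVERY interval `(A, B]`, `B ≤ X`, `B - A ≥ X ^ ε`, contains between `κ (B - A) V` and
`K (B - A) V` good `x`, `V` being the product of `1 - ω(p) / p` over `p ≤ X`; and for every colouring of the integers with `r`
colours all but at most `δ (B - A) V` of them are covered by disjoint monochromatic `s`-term progressions of good integers of
the interval, with differences at most `(log X) ^ c`.

The theorem is `Pool.Agent.X32.Uni.killS` of the starting files (in no hand-in there).  The bounds for the number of the good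
`x` are from the fundamental lemma of the sieve, of known kind; new are the covering by monochromatic narrow progressions
inside intervals of length `X ^ ε` and the exact patterns.  `Clusters` on this page finds single narrow progressions in
intervals of length `X ^ (3 / 4)`, with many pairs at each term.
-/

set_option autoImplicit false

open Finset Polynomial

namespace Pool.Agent.Results.MP_2dba45_nt.ShortIntervalPatterns

variable {m : ℕ}

/-- `|v| > 1`, and `|v|` is a product of at most `r` primes, all of them larger than `y` -/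
def Almost (r : ℕ) (y : ℝ) (v : ℤ) : Prop :=
  1 < |v| ∧ v.natAbs.primeFactorsList.length ≤ r ∧ ∀ q : ℕ, q.Prime → (q : ℤ) ∣ v → y < q

/-- the number of the zeros of `∏ f_l` modulo `p` -/
noncomputable def ω (f : Fin m → ℤ[X]) (p : ℕ) : ℕ :=
  ((range p).filter (fun x : ℕ => (p : ℤ) ∣ ∏ k, (f k).eval (x : ℤ))).card

/-- the product of `1 - ω(p) / p` over the primes `p ≤ X` -/
noncomputable def V (f : Fin m → ℤ[X]) (n : ℕ) : ℝ :=
  ∏ p ∈ (Icc 1 n).filter Nat.Prime, (1 - (ω f p : ℝ) / p)

open Classical in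
/-- the good `x` in `(A, B]` -/
noncomputable def Good (f : Fin m → ℤ[X]) (G : Finset ℤ[X]) (C t X A B : ℕ) : Finset ℕ :=
  (Ioc A B).filter (fun x : ℕ =>
    (∀ l, Almost (t * (f l).natDegree) ((X : ℝ) ^ (1 / (t : ℝ))) ((f l).eval (x : ℤ))) ∧
    ∀ g ∈ G, ∃ q : ℕ, q.Prime ∧ q ≤ C ∧ (q : ℤ) ∣ g.eval (x : ℤ))

/-- the terms of the progression with first term `z.1`, difference `z.2` and `l` terms -/
def ap (l : ℕ) (z : ℕ × ℕ) : Finset ℕ := (range l).image (fun i => z.1 + i * z.2)

/-- Let `f_1, …, f_m` be nonconstant, `∏ f_l` without fixed prime divisor, `G` a finite set of nonzero polynomials, each with a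
complex zero at which no `f_l` vanishes, and `ε > 0`.  There are `C`, `t ≥ 1`, `κ > 0`, `K > 0` such that for all `s ≥ 1`, `r` and
`δ > 0` there are `c`, `X₀` with: for `X ≥ X₀` we have `V ≥ κ / (log X) ^ (∑ deg f_l)`, and for `B ≤ X`, `B - A ≥ X ^ ε` the number of
the good `x` in `(A, B]` is between `κ (B - A) V` and `K (B - A) V`, and for every colouring `χ` with `r` colours there is a finite set
of disjoint `s`-term progressions of good integers of `(A, B]`, each of one colour and with difference at most `(log X) ^ c`,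
which cover all but at most `δ (B - A) V` of the good integers. -/
theorem result (f : Fin m → ℤ[X]) (hm : 0 < m) (hdeg : ∀ l, 1 ≤ (f l).natDegree)
    (hloc : ∀ p : ℕ, p.Prime → ∃ x : ℤ, ¬ (p : ℤ) ∣ ∏ k, (f k).eval x)
    (G : Finset ℤ[X]) (hG : ∀ g ∈ G, g ≠ 0 ∧ ∃ α : ℂ, aeval α g = 0 ∧ ∀ l, aeval α (f l) ≠ 0)
    (ε : ℝ) (hε : 0 < ε) :
    ∃ C t : ℕ, 1 ≤ t ∧ ∃ κ K : ℝ, 0 < κ ∧ 0 < K ∧ ∀ (s r : ℕ) (δ : ℝ), 1 ≤ s → 0 < δ → ∃ c X₀ : ℕ, ∀ X : ℕ, X₀ ≤ X →
      κ / Real.log X ^ (∑ l, (f l).natDegree) ≤ V f X ∧ ∀ A B : ℕ, B ≤ X → (X : ℝ) ^ ε ≤ (B : ℝ) - A →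
        κ * ((B : ℝ) - A) * V f X ≤ ((Good f G C t X A B).card : ℝ) ∧
        ((Good f G C t X A B).card : ℝ) ≤ K * ((B : ℝ) - A) * V f X ∧
        ∀ χ : ℕ → Fin r, ∃ P : Finset (ℕ × ℕ),
          (∀ z ∈ P, 1 ≤ z.2 ∧ (z.2 : ℝ) ≤ Real.log X ^ c ∧
            ∀ l < s, z.1 + l * z.2 ∈ Good f G C t X A B ∧ χ (z.1 + l * z.2) = χ z.1) ∧
          (P : Set (ℕ × ℕ)).PairwiseDisjoint (ap s) ∧
          (((Good f G C t X A B \ P.biUnion (ap s)).card : ℕ) : ℝ) ≤ δ * ((B : ℝ) - A) * V f X :=
  Pool.Agent.X32.Uni.killS f hm hdeg hloc G hG ε hε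

end Pool.Agent.Results.MP_2dba45_nt.ShortIntervalPatterns
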