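import Pool.Agent.X32.Uni.Gold

/-!
# Goldbach partitions of several numbers with a common prime, and a `P_2`, covered by monochromatic narrow progressions

Let `K` be given.  There are `t` and `κ > 0` with the following property, uniformly for ALL `K`-tuples `m_1, …, m_K ≤ D X` without
local obstruction (for every prime `p` some class `n ≠ 0` modulo `p` differs from all the `m_l`; for `K = 1` this says that `m_1` is
even), and each `j`.  Call a prime `p` good if `m_j - p` is a product of at most two primes, larger than `X ^ (1 / 9)`, and every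
`m_l - p` is a product of at most `t` primes, larger than `X ^ (1 / t)`.  Then every interval `(A, B]`, `B ≤ X`, `B ≤ m_l`,
`B - A ≥ θ X`, contains at least `κ (B - A) V` good primes, `V` being the product of `1 - ν(p) / p`, `p ≤ X`, where `ν(p)` is the
number of the classes of `0, m_1, …, m_K` modulo `p`; and for every colouring of the integers with `r` colours all but at most
`δ (B - A) V` of the good primes of the interval are covered by disjoint monochromatic `s`-term progressions of good primes
with differences at most `(log X) ^ c`.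

For `K = 1` and `m_1 = 2 n` these are partitions `2 n = p + q` with `p` prime, `q = P_2`, and `p` in any subinterval of length `θ n` of
`(√(2 n), n)`; Chen's theorem gives their number.

The theorem is `Pool.Agent.X32.Uni.goldP` of the starting files (in no hand-in there).
-/

set_option autoImplicit false

open Finset

namespace Pool.Agent.Results.MP_33f996_nt.CommonSummand

variable {K : ℕ}

/-- the number of the residue classes of `0, m_1, …, m_K` modulo `p` -/
def ν (m : Fin K → ℕ) (p : ℕ) : ℕ := ((insert 0 (univ.image m)).image (fun a => a % p)).card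

/-- the product of `1 - ν(p) / p` over the primes `p ≤ X` -/
noncomputable def V (m : Fin K → ℕ) (X : ℕ) : ℝ := ∏ p ∈ (Icc 1 X).filter Nat.Prime, (1 - (ν m p : ℝ) / p)

/-- no local obstruction -/
def Admissible (m : Fin K → ℕ) : Prop := ∀ p : ℕ, p.Prime → ∃ n : ℕ, ¬ p ∣ n ∧ ∀ l, ¬ n ≡ m l [MOD p]

/-- `v > 1` is a product of at most `r` primes, all of them larger than `y` -/
def Almost (r : ℕ) (y : ℝ) (v : ℕ) : Prop :=
  1 < v ∧ v.primeFactorsList.length ≤ r ∧ ∀ q : ℕ, q.Prime → q ∣ v → y < q

open Classical in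
/-- the good primes in `(A, B]` -/
noncomputable def Good (m : Fin K → ℕ) (j : Fin K) (t X A B : ℕ) : Finset ℕ :=
  (Ioc A B).filter (fun p : ℕ => p.Prime ∧ (X : ℝ) ^ (1 / (t : ℝ)) < p ∧
    Almost 2 ((X : ℝ) ^ (1 / 9 : ℝ)) (m j - p) ∧
    ∀ l, Almost t ((X : ℝ) ^ (1 / (t : ℝ))) (m l - p))

/-- the terms of the progression with first term `z.1`, difference `z.2` and `l` terms -/
def ap (l : ℕ) (z : ℕ × ℕ) : Finset ℕ := (range l).image (fun i => z.1 + i * z.2)

/-- For every `K` there are `t ≥ 1` and `κ > 0` such that for all `D`, `s ≥ 1`, `r`, `θ > 0`, `δ > 0` there are `c`, `X₀` with: for all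
`X ≥ X₀`, all admissible `m_1, …, m_K ≤ D X`, all `j` and all `A`, `B` with `B ≤ X`, `B - A ≥ θ X` and `B ≤ m_l` for all `l`, we have
`V ≥ κ / (log X) ^ (K + 1)`, there are at least `κ (B - A) V` good primes in `(A, B]`, and for every colouring `χ` with `r` colours
there is a finite set of disjoint `s`-term progressions of good primes of `(A, B]`, each of one colour and with difference at
most `(log X) ^ c`, which cover all but at most `δ (B - A) V` of the good primes. -/
theorem result (K : ℕ) : ∃ t : ℕ, 1 ≤ t ∧ ∃ κ : ℝ, 0 < κ ∧ ∀ (D s r : ℕ) (θ δ : ℝ), 1 ≤ s → 0 < θ → 0 < δ →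
    ∃ c X₀ : ℕ, ∀ X : ℕ, X₀ ≤ X → ∀ m : Fin K → ℕ, (∀ l, m l ≤ D * X) → Admissible m → ∀ j : Fin K,
      ∀ A B : ℕ, B ≤ X → θ * X ≤ (B : ℝ) - A → (∀ l, B ≤ m l) →
        κ / Real.log X ^ (K + 1) ≤ V m X ∧
        κ * ((B : ℝ) - A) * V m X ≤ ((Good m j t X A B).card : ℝ) ∧
        ∀ χ : ℕ → Fin r, ∃ P : Finset (ℕ × ℕ),
          (∀ z ∈ P, 1 ≤ z.2 ∧ (z.2 : ℝ) ≤ Real.log X ^ c ∧
            ∀ i < s, z.1 + i * z.2 ∈ Good m j t X A B ∧ χ (z.1 + i * z.2) = χ z.1) ∧
          (P : Set (ℕ × ℕ)).PairwiseDisjoint (ap s) ∧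
          (((Good m j t X A B \ P.biUnion (ap s)).card : ℕ) : ℝ) ≤ δ * ((B : ℝ) - A) * V m X :=
  Pool.Agent.X32.Uni.goldP K

end Pool.Agent.Results.MP_33f996_nt.CommonSummand
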