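import Pool.Agent.X32.Uni.Cons

/-!
# Isolated constellations with a prime, a `P_2` and almost primes, in all dense sets in narrow progressions

Let `h_1, …, h_k` be an admissible tuple of distinct natural numbers, for example `(0, 2, 6)` or `(0, 2, 6, 8)`, let `i ≠ j` and
let `L` be a number.  There are constants `C`, `t` and `κ > 0` with the following property.  Call `n ≤ X` good if `n + h_i` is
a prime, `n + h_j` is a product of at most two primes, all `n + h_l` are products of at most `t` primes larger than
`X ^ (1 / t)` (those of `n + h_j` being larger than `X ^ (1 / 9)`), and EVERY other integer `m` with `|m - n| ≤ L` has a prime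
factor `≤ C`.  Then every interval `(A, B]`, `B ≤ X`, `B - A ≥ θ X`, contains at least `κ (B - A) V` good `n`, where `V` is the
product of `1 - ω(p) / p` over the primes `p ≤ X`, of order `1 / (log X) ^ k`; and every set of at least `δ (B - A) V` of
them contains `s`-term progressions with difference at most `(log X) ^ c`.

So the tuple is realised as an exact pattern of almost primes in the window of radius `L` (for `L ≥ max h` it is a
constellation of consecutive almost primes in the strict sense), with one prime and one `P_2` at prescribed places.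

The theorem is `Pool.Agent.X32.Uni.consU` of the starting files (in no hand-in there): the weighted sieve of Chen (with the
theorem of Bombieri and Vinogradov) for systems of linear forms, uniformly, a residue class in which the other integers of
the window have small prime factors, and narrow progressions in dense sets of arguments with rough values.
-/

set_option autoImplicit false

open Finset

namespace Pool.Agent.Results.MP_3efbeb_nt.IsolatedConstellations

variable {k : ℕ}

/-- the tuple is admissible -/
def Admissible (h : Fin k → ℕ) : Prop := ∀ p : ℕ, p.Prime → ∃ n : ℕ, ∀ l, ¬ p ∣ n + h l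

/-- `|v| > 1`, and `|v|` is a product of at most `r` primes, all of them larger than `y` -/
def Almost (r : ℕ) (y : ℝ) (v : ℤ) : Prop :=
  1 < |v| ∧ v.natAbs.primeFactorsList.length ≤ r ∧ ∀ q : ℕ, q.Prime → (q : ℤ) ∣ v → y < q

/-- the number of the residue classes `n` modulo `p` for which `p` divides one of the `n + h_l` -/
def ω (h : Fin k → ℕ) (p : ℕ) : ℕ :=
  ((range p).filter (fun n : ℕ => (p : ℤ) ∣ ∏ l, ((1 : ℤ) * (n : ℤ) + (h l : ℤ)))).card

/-- the product of `1 - ω(p) / p` over the primes `p ≤ X` -/
noncomputable def V (h : Fin k → ℕ) (X : ℕ) : ℝ :=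
  ∏ p ∈ (Icc 1 X).filter Nat.Prime, (1 - (ω h p : ℝ) / p)

open Classical in
/-- the good `n` in `(A, B]`: `n + h_i` is prime, `n + h_j` is a product of at most two primes, larger than `X ^ (1 / 9)`,
every `n + h_l` is a product of at most `t` primes, larger than `X ^ (1 / t)`, and every integer `m ≠ n + h_l` with
`|m - n| ≤ L` has a prime factor `≤ C` -/
noncomputable def Good (h : Fin k → ℕ) (i j : Fin k) (L C t X A B : ℕ) : Finset ℕ :=
  (Ioc A B).filter (fun n : ℕ => (n + h i).Prime ∧ Almost 2 ((X : ℝ) ^ (1 / 9 : ℝ)) ((n + h j : ℕ) : ℤ) ∧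
    (∀ l, Almost t ((X : ℝ) ^ (1 / (t : ℝ))) ((n + h l : ℕ) : ℤ)) ∧
    ∀ m : ℕ, n ≤ m + L → m ≤ n + L → (∀ l, m ≠ n + h l) → ∃ q : ℕ, q.Prime ∧ q ≤ C ∧ q ∣ m)

/-- Let `h_1, …, h_k` be distinct natural numbers which form an admissible tuple, `i ≠ j`, and `L` a natural number.  There
are `C`, `t ≥ 1` and `κ > 0` such that for all `θ > 0`: (1) for all large `X` we have `V ≥ κ / (log X) ^ k`, and for all
`A`, `B` with `B ≤ X`, `B - A ≥ θ X`, there are at least `κ (B - A) V` good `n` in `(A, B]`; (2) for all `s` and `δ > 0` there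
is `c` such that for all large `X` and all such `A`, `B` every set of at least `δ (B - A) V` good `n` contains `s` terms in
progression with difference at most `(log X) ^ c`. -/
theorem result (hk : 1 ≤ k) (h : Fin k → ℕ) (hinj : Function.Injective h) (H : Admissible h) (i j : Fin k) (hij : i ≠ j)
    (L : ℕ) : ∃ C t : ℕ, 1 ≤ t ∧ ∃ κ : ℝ, 0 < κ ∧ ∀ θ : ℝ, 0 < θ →
    (∃ X₀ : ℕ, ∀ X : ℕ, X₀ ≤ X → κ / Real.log X ^ k ≤ V h X ∧
      ∀ A B : ℕ, B ≤ X → θ * X ≤ (B : ℝ) - A →
        κ * ((B : ℝ) - A) * V h X ≤ ((Good h i j L C t X A B).card : ℝ)) ∧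
    ∀ s : ℕ, ∀ δ : ℝ, 0 < δ → ∃ c X₀ : ℕ, ∀ X : ℕ, X₀ ≤ X →
      ∀ A B : ℕ, B ≤ X → θ * X ≤ (B : ℝ) - A →
        ∀ S : Finset ℕ, S ⊆ Good h i j L C t X A B → δ * ((B : ℝ) - A) * V h X ≤ S.card →
        ∃ n d : ℕ, 1 ≤ d ∧ (d : ℝ) ≤ Real.log X ^ c ∧ ∀ l < s, n + l * d ∈ S :=
  Pool.Agent.X32.Uni.consU hk h hinj H i j hij L

end Pool.Agent.Results.MP_3efbeb_nt.IsolatedConstellations
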