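import Pool.Agent.H447R3.KuB

/-!
# The Künneth standard conjecture modulo numerical equivalence

Let `X` be a smooth proper variety of dimension `n` and `W` a Weil cohomology theory, for example
`ℓ`-adic cohomology. The Künneth components of the diagonal of `X` are algebraic if and only if
there are cycles `z_i` of codimension `n` on `X × X` which have the same intersection numbers as
the Künneth components with all cycles of codimension `n`, and which are orthogonal projectors up
to numerical equivalence. It is not assumed that homological and numerical equivalence agree.
-/

open Pool.Agent.H914 Pool.Agent.H447

universe u v

namespace Pool.Agent.Results.MP_4ca46c_ag.NumericalProjectors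

/-- **All Künneth components of the diagonal of `X` are algebraic if and only if there are cycles
`z_i` with the same intersection numbers, such that `z_i ∘ z_j` is numerically equivalent to `z_i`
for `i = j` and to `0` for `i ≠ j`.** -/
theorem result {k : Type u} [Field k] {𝒱 : VarClass k} {ops : CycleOps 𝒱}
    (W : WeilCohomology.{u, v} ops) (X : 𝒱.Obj) : KunnethStd W X ↔ KunnethNum W X :=
  kunneth_iff_num

end Pool.Agent.Results.MP_4ca46c_ag.NumericalProjectors
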