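import Pool.Agent.TH783.OV.Fin

set_option autoImplicit false

open Set MeasureTheory

/-!
# The countable-or-perfect dichotomy for the orbits of `S_∞` on spaces of ordered modules

Let `T` be a countable set of real numbers and let `K` be the ring generated by `T`.  A point `x` of
the Polish space `XT T` is a structure with universe `ℕ`: a binary relation `<`, a binary operation
`+` and a unary operation for every `t ∈ T` (multiplication by `t`).  The Polish group `S_∞` of the
permutations of `ℕ` acts on this space continuously by relabelling (`relabel`).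

Let `B` be an invariant Borel set of structures which are ordered modules over `K` (linearly ordered
abelian groups which are `K`-modules and on which positive scalars preserve positivity; for `T = ∅`
these are the ordered abelian groups, for a countable field `K` the ordered vector spaces over `K`),
each of which is divisible or a sum of submodules attached to its archimedean classes.  Then the
Borel `S_∞`-space `B` has countably many or perfectly many orbits.
-/

namespace Pool.Agent.Results.MP_5607ba_lc.OrderedModuleActions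

open Pool.Agent.TH783.OV

/-- The action of `S_∞` on structures by relabelling. -/
def relabel {T : Set ℝ} (σ : Equiv.Perm ℕ) (x : XT T) : XT T :=
  (fun m n => x.1 (σ.symm m) (σ.symm n), fun m n => σ (x.2.1 (σ.symm m) (σ.symm n)),
    fun t m => σ (x.2.2 t (σ.symm m)))

theorem relabel_one {T : Set ℝ} (x : XT T) : relabel 1 x = x := rfl

theorem relabel_mul {T : Set ℝ} (σ τ : Equiv.Perm ℕ) (x : XT T) :
    relabel (σ * τ) x = relabel σ (relabel τ x) := rfl

theorem isoX_iff {T : Set ℝ} (x y : XT T) : IsoX x y ↔ ∃ σ : Equiv.Perm ℕ, relabel σ x = y := by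
  constructor
  · rintro ⟨σ, h1, h2, h3⟩
    refine ⟨σ, Prod.ext ?_ (Prod.ext ?_ ?_)⟩
    · funext m n
      have := h1 (σ.symm m) (σ.symm n)
      rw [σ.apply_symm_apply, σ.apply_symm_apply] at this
      exact this.symm
    · funext m n
      have := h2 (σ.symm m) (σ.symm n)
      rw [σ.apply_symm_apply, σ.apply_symm_apply] at this
      exact this.symm
    · funext t m
      have := h3 t (σ.symm m)
      rw [σ.apply_symm_apply] at this
      exact this.symm
  · rintro ⟨σ, rfl⟩
    refine ⟨σ, fun m n => ?_, fun m n => ?_, fun t m => ?_⟩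
    · show x.1 (σ.symm (σ m)) (σ.symm (σ n)) = _
      rw [σ.symm_apply_apply, σ.symm_apply_apply]
    · show σ (x.2.1 (σ.symm (σ m)) (σ.symm (σ n))) = _
      rw [σ.symm_apply_apply, σ.symm_apply_apply]
    · show σ (x.2.2 t (σ.symm (σ m))) = _
      rw [σ.symm_apply_apply]

/-- **The dichotomy for `S_∞`-spaces of ordered modules** which are divisible or lexicographic sums
of archimedean submodules: countably many orbits, or a continuous map from Cantor space into `B`
sending distinct points to distinct orbits. -/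
theorem result (T : Set ℝ) (hT : T.Countable) (B : Set (XT T)) (hB : MeasurableSet B)
    (hinv : ∀ x ∈ B, ∀ σ : Equiv.Perm ℕ, relabel σ x ∈ B)
    (hmod : ∀ x ∈ B, ∃ (V : Type) (_ : AddCommGroup V) (_ : LinearOrder V)
      (_ : IsOrderedAddMonoid V) (_ : Module (Subring.closure T) V) (e : ℕ ≃ V),
      (∀ (s : Subring.closure T) (v : V), 0 < s → 0 < v → 0 < s • v) ∧
      (∀ m n, x.1 m n = true ↔ e m < e n) ∧ (∀ m n, e (x.2.1 m n) = e m + e n) ∧
      (∀ (t : T) (m : ℕ), e (x.2.2 t m) = sc t • e m) ∧
      ((∀ (s : Subring.closure T) (v : V), s ≠ 0 → ∃ w : V, s • w = v) ∨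
        ∃ A : ArchimedeanClass V → Submodule (Subring.closure T) V,
          (∀ γ, ∀ v ∈ A γ, v ≠ 0 → ArchimedeanClass.mk v = γ) ∧ ⨆ γ, A γ = ⊤)) :
    (∃ C : Set (XT T), C.Countable ∧ C ⊆ B ∧ ∀ x ∈ B, ∃ y ∈ C, ∃ σ : Equiv.Perm ℕ,
      relabel σ y = x) ∨
    (∃ g : (ℕ → Bool) → XT T, Continuous g ∧ (∀ c, g c ∈ B) ∧
      ∀ c d, (∃ σ : Equiv.Perm ℕ, relabel σ (g c) = g d) → c = d) := by
  have : Countable T := hT.to_subtype
  have hm : ∀ x ∈ B, Good x := by
    intro x hx
    obtain ⟨V, i1, i2, i3, i4, e, h1, h2, h3, h4, h5⟩ := hmod x hx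
    exact ⟨V, i1, i2, i3, i4, e, h1, ⟨h2, h3, h4⟩, h5⟩
  have hi : ∀ x ∈ B, ∀ y, IsoX x y → y ∈ B := by
    intro x hx y hxy
    obtain ⟨σ, rfl⟩ := (isoX_iff x y).1 hxy
    exact hinv x hx σ
  rcases main B hB hi hm with ⟨f, hf⟩ | ⟨g, hg, hgB, hgi⟩
  · left
    refine ⟨Set.range f ∩ B, (Set.countable_range f).mono Set.inter_subset_left,
      Set.inter_subset_right, fun x hx => ?_⟩
    obtain ⟨n, hn⟩ := hf x hx
    obtain ⟨σ, hσ⟩ := (isoX_iff _ _).1 hn
    refine ⟨f n, ⟨⟨n, rfl⟩, ?_⟩, σ, hσ⟩
    have := hinv x hx σ.symm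
    rw [← hσ] at this
    have h2 : relabel σ.symm (relabel σ (f n)) = f n := by
      have h3 := relabel_mul (T := T) σ⁻¹ σ (f n)
      rw [inv_mul_cancel] at h3
      exact h3.symm
    rwa [h2] at this
  · right
    exact ⟨g, hg, hgB, fun c d hcd => hgi c d ((isoX_iff _ _).2 hcd)⟩

end Pool.Agent.Results.MP_5607ba_lc.OrderedModuleActions
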