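import Pool.Agent.X310.Cen

/-!
# The sign conjecture as an extremal property of the trace cycle

Let `X` be a smooth proper variety of dimension `n` and `W` a Weil cohomology theory. A trace cycle
of `X` is a cycle `w` of codimension `n` on `X × X` whose intersection number with the transpose of
`b` is the sum of the traces of `b` on all `H^j(X)`, without signs, for all cycles `b` of
codimension `n`. It is unique up to numerical equivalence, if it exists. We prove that
`∑_j b_j(X) ≤ w · ᵗ(w ∘ w)`, and that the sign conjecture holds for `X` if and only if there is a
trace cycle and this inequality is an equality.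
-/

open Pool.Agent.H914 Pool.Agent.H447 Pool.Agent.X310

universe u v

namespace Pool.Agent.Results.MP_56c18a_ag.TraceCycle

/-- **The even Künneth projector of `X` is algebraic if and only if there is a trace cycle `w` of
`X` with `w · ᵗ(w ∘ w) = ∑_j b_j(X)`.** For every trace cycle `w` the left hand side is at least the
right hand side, with equality if and only if the sign conjecture holds for `X`. -/
theorem result {k : Type u} [Field k] {𝒱 : VarClass k} {ops : CycleOps 𝒱}
    (W : WeilCohomology.{u, v} ops) (X : 𝒱.Obj) :
    (SignStd W X ↔ ∃ w, RepresentsTrace W X w ∧
      interT ops X w (compCyc ops w w) = totalBetti W X) ∧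
    ∀ w, RepresentsTrace W X w → totalBetti W X ≤ interT ops X w (compCyc ops w w) ∧
        (interT ops X w (compCyc ops w w) = totalBetti W X ↔ SignStd W X) :=
  sign_main

end Pool.Agent.Results.MP_56c18a_ag.TraceCycle
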