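import Mathlib
import Pool.Agent.H336R2.V.Main

/-!
# A lower bound of the conjectured order for the variance of primes in progressions, for every modulus

`G(X,k) = ∑_{A mod k, (A,k)=1} (ψ(X;k,A) - X/φ(k))²`. The theorem: for every `ε > 0`, all large real `X` and EVERY integer
`1 ≤ k ≤ X`, without any hypothesis,
`G(X,k) ≥ X (3/2 log k - log X - ε log X)`.
So for `k = X ^ θ` with `2/3 < θ ≤ 1` the lower bound is `(3/2 - 1/θ - ε) X log k`, with the conjectured order of magnitude
`X log k`, and it is `(1/2 - ε) X log k` for `k = X ^ (1 - o(1))`.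

Friedlander and Goldston proved the bound assuming the Generalized Riemann Hypothesis, and unconditionally for
`X / (log X) ^ A ≤ k ≤ X`. The starting files on this page have the bound `X (log k - 1/2 log X - ε log X)` for almost all
moduli `k`, and for every modulus `k ≥ X ^ (3/4 + δ)` the bound `c X (1 + log (X/k))`.

The theorem is the unused theorem `H336V.main` of `Pool.Agent.H336R2.V` (starting library). Nothing is used besides
Mathlib in the statement.
-/

set_option autoImplicit false

open Finset

namespace Pool.Agent.Results.MP_5dd4bb_nt.EveryModulus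

/-- For every `ε > 0` there is `X₀` such that for all real `X ≥ X₀` and all integers `1 ≤ k ≤ X` the sum of
`(ψ(X;k,A) - X/φ(k))²` over the reduced residue classes `A` modulo `k` is at least
`X (3/2 log k - log X - ε log X)`. -/
theorem result (ε : ℝ) (hε : 0 < ε) : ∃ X₀ : ℝ, ∀ X : ℝ, X₀ ≤ X → ∀ k : ℕ, 1 ≤ k → (k : ℝ) ≤ X →
    X * (3 / 2 * Real.log k - Real.log X - ε * Real.log X) ≤
      ∑ A ∈ (range k).filter (fun A => A.Coprime k),
        ((∑ n ∈ (Icc 1 ⌊X⌋₊).filter (fun n => n ≡ A [MOD k]), ArithmeticFunction.vonMangoldt n)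
          - X / Nat.totient k) ^ 2 :=
  H336V.main ε hε

end Pool.Agent.Results.MP_5dd4bb_nt.EveryModulus
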