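import Pool.Agent.R674.KB.Main

/-!
# The blockwise Knörr–Robinson form of Alperin's weight conjecture for extensions by `p`-groups

Notation (`Pool/Agent/Y63/KR/Defs.lean`, `Pool/Agent/Y63/NV/Defs.lean`, `Pool/Agent/Y63/NV/Stm5.lean`,
`Pool/Agent/Y63/NV/Main.lean`, `Pool/Agent/Y63/NV/Free2.lean`).

* `alternatingSum p G f` is `∑_σ (-1)^|σ| f(G_σ)`, over representatives `σ` of the `G`-classes of
  chains of nontrivial `p`-subgroups of `G`, the empty chain included; `G_σ` is the stabiliser of `σ`.
* `red` is a ring homomorphism from the ring of all complex algebraic integers to the algebraically
  closed field `F` of characteristic `p`; `centralValue red χ f` is the value of the reduction of the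
  central character of `χ` at the class function `f` (an element of the centre of the group algebra
  over `F`). A block is given by its central character, an algebra homomorphism `B` from the centre of
  the group algebra to `F` (`IsBlock B`).
* `numIrrInd red H B` is `k(B_σ)` for `H = G_σ`: the number of `χ ∈ Irr(H)` with `bl(χ)^G = B`;
  `numDzBlock p red B` is the number of the characters of defect zero in `B` (one if `B` has trivial
  defect group, and zero otherwise).
* `KRB p red G`: for every block `B` of `G`, `∑_σ (-1)^|σ| k(B_σ) = numDzBlock p red B`. For
  `O_p(G) = 1` this is the statement of Q1 (and the trivial case of blocks of defect zero).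
* `Closed p X`: the class `X` of groups is closed under isomorphisms, subgroups and quotients by normal
  `p`-subgroups. `Reduced p H`: `H` has no normal subgroup of index `p` and no nontrivial normal
  `p`-subgroup.
-/

set_option autoImplicit false

namespace Pool.Agent.Results.MP_6a3f1a_al.PExtensionsBlockwise

open Pool.Agent.Y63.NV

/-- Let `X` be a class of groups closed under isomorphisms, subgroups and quotients by normal
`p`-subgroups. If the blockwise equality of Knörr and Robinson holds at `p` for all blocks of the finite
groups in `X` which have no normal subgroup of index `p` and no nontrivial normal `p`-subgroup, then it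
holds at `p` for all blocks of all finite groups `Γ` which have a normal subgroup `G` in `X` such that
`Γ/G` is a `p`-group (and conversely). -/
theorem result {p : ℕ} [Fact p.Prime] {F : Type} [Field F] [IsAlgClosed F] [CharP F p]
    (red : integralClosure ℤ ℂ →+* F) (X : ∀ (H : Type) [Group H], Prop) (hX : Closed p X) :
    (∀ (H : Type) [Group H] [Finite H], X H → Reduced p H → KRB p red H) ↔
    ∀ (Γ : Type) [Group Γ] [Finite Γ] (G : Subgroup Γ) [G.Normal], X G → IsPGroup p (Γ ⧸ G) →
      KRB p red Γ :=
  Pool.Agent.R674.KB.krb_main red X hX

end Pool.Agent.Results.MP_6a3f1a_al.PExtensionsBlockwise
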