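import Pool.Agent.R210.S14
import Pool.Agent.R210.Q12

/-!
At a singular point of a solution of the three-dimensional Navier-Stokes equations the vorticity
line (the direction of the vorticity up to its sign) leaves every double cone or oscillates at
arbitrarily high vorticity: solutions in an open set, with a force, and periodic solutions.
-/

set_option autoImplicit false

open MeasureTheory Set Metric
open H459R3.NS W221.NS

namespace Pool.Agent.Results.MP_6bf1e5_an.VorticityLineOscillation

/-- The Euclidean length of a vector of `ℝ³`. -/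
noncomputable def len (a : V) : ℝ := Real.sqrt (∑ i, a i ^ 2)

/-- The curl of a vector field. -/
noncomputable def curl (v : V → V) (x : V) : V :=
  ![pd 1 (fun y => v y 2) x - pd 2 (fun y => v y 1) x,
    pd 2 (fun y => v y 0) x - pd 0 (fun y => v y 2) x,
    pd 0 (fun y => v y 1) x - pd 1 (fun y => v y 0) x]

/-- The lines of the values of `W` in `U` lie in a double cone `{a : |a · e| ≥ η |a|}`, where `e` is
a unit vector. -/
def InDoubleCone (W : V → V) (η : ℝ) (U : Set V) : Prop := ∃ e : V, len e = 1 ∧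
  ∀ x ∈ U, η * len (W x) ≤ |∑ i, e i * W x i|

/-- Some values of `W` in `U` of length greater than `K` form an angle with sine greater than
`δ`. -/
def Turns (W : V → V) (δ K : ℝ) (U : Set V) : Prop := ∃ x ∈ U, ∃ y ∈ U,
  K < len (W x) ∧ K < len (W y) ∧
    δ * (len (W x) * len (W y)) < len (crossProduct (W x) (W y))

/-- The vorticity lines leave all double cones or oscillate at high vorticity near `x₀` before the
time `T`: for every `η > 0` there is `δ > 0` such that for all `K`, all `r > 0` and all `T₁ < T`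
there is a set of positive measure of times `t ∈ (T₁, T)` for which the vorticity `W` of `u(t)` has
the following property: the lines of its values in `ball x₀ r` lie in no double cone
`{a : |a · e| ≥ η |a|}`, `|e| = 1`, or there are `x, y ∈ ball x₀ r` with `|W(x)|, |W(y)| > K` such
that the sine of the angle between `W(x)` and `W(y)` is greater than `δ`. -/
def LineOscillates (T : ℝ) (u : ℝ → V → V) (x₀ : V) : Prop :=
  ∀ η : ℝ, 0 < η → ∃ δ : ℝ, 0 < δ ∧ ∀ K r T₁ : ℝ, 0 < r → T₁ < T →
    ∃ᵐ t ∂(volume.restrict (Ioo T₁ T)),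
      ¬ InDoubleCone (curl (u t)) η (ball x₀ r) ∨ Turns (curl (u t)) δ K (ball x₀ r)

lemma osc_of {T : ℝ} {u : ℝ → V → V} {x₀ : V}
    (h : ∀ {η : ℝ}, 0 < η → ∃ δ : ℝ, 0 < δ ∧ ∀ K r T1 : ℝ, 0 < r → T1 < T →
      ¬ ∀ᵐ t ∂volume.restrict (Ioo T1 T),
        (∃ e : V, Pool.Agent.R210.en e = 1 ∧
          Pool.Agent.R210.ConeL (Pool.Agent.R210.cu (u t)) e η (ball x₀ r)) ∧
        Pool.Agent.R210.SinL (Pool.Agent.R210.cu (u t)) K δ (ball x₀ r)) :
    LineOscillates T u x₀ := by
  intro η hη
  obtain ⟨δ, hδ, H⟩ := h hη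
  refine ⟨δ, hδ, fun K r T₁ hr hT₁ hcon => H K r T₁ hr hT₁ ?_⟩
  filter_upwards [hcon] with t ht
  push Not at ht
  refine ⟨ht.1, fun x hx y hy h1 h2 => ?_⟩
  by_contra h3
  exact ht.2 ⟨x, hx, y, hy, h1, h2, not_le.1 h3⟩

/-- * Let `(u, p)` be a smooth solution of the Navier-Stokes equations with viscosity `ν > 0` and
  force `f` in `(0, T) × Ω`, `Ω` an open subset of `ℝ³`, with bounded energy and finite dissipation
  in `Ω`. At every point of `Ω` which is singular at the time `T` the vorticity lines leave all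
  double cones or oscillate at high vorticity.
* A smooth `1`-periodic solution which is unbounded on `[0, T)` has a point in the period cell with
  this property. -/
theorem result :
    (∀ (ν T E F : ℝ) (Ω : Set V) (u : ℝ → V → V) (p : ℝ → V → ℝ) (f : ℝ → V → V), 0 < ν → 0 < T →
      OSolF ν T E F Ω u p f →
      ∫⁻ t in Ioo 0 T, ∫⁻ y in Ω, ENNReal.ofReal (gsq (u t) y) ≠ ⊤ →
      ∀ x₀ ∈ Ω, Sing T u x₀ → LineOscillates T u x₀) ∧
    ∀ (ν T F : ℝ) (u : ℝ → V → V) (p : ℝ → V → ℝ) (f : ℝ → V → V), 0 < ν → 0 < T →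
      IsSolF ν T F u p f → (¬ ∃ M : ℝ, ∀ t ∈ Ico 0 T, ∀ x i, |u t x i| ≤ M) →
        ∃ x₀ ∈ cube, Sing T u x₀ ∧ LineOscillates T u x₀ := by
  refine ⟨fun ν T E F Ω u p f hν hT h hfin x₀ hx₀ hS => ?_, fun ν T F u p f hν hT h hunb => ?_⟩
  · exact osc_of fun hη => Pool.Agent.R210.sing_lineD hν h hfin hx₀ hT hS hη
  · obtain ⟨x₀, hx₀, hS⟩ := Pool.Agent.R210.sing_exists hT h.smooth_u.continuousOn h.per_u (by
      rintro ⟨M, hM⟩
      exact hunb ⟨M, fun t ht x i => (norm_le_pi_norm (u t x) i).trans (hM t ht x)⟩)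
    exact ⟨x₀, hx₀, hS, osc_of fun hη => Pool.Agent.R210.peri_lineF hν hT h hx₀ hS hη⟩

end Pool.Agent.Results.MP_6bf1e5_an.VorticityLineOscillation
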