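import Pool.Agent.Helper486.TP.Final

/-!
# The Riesz measure of the lower envelope of finitely many delta-subharmonic functions

For every `n ≥ 1`, every domain `Ω` of `ℝⁿ`, every `m ≥ 2` and all δ-subharmonic functions
`w₁, …, w_m` in `Ω`, the Riesz measure of the lower envelope `⋀ w_j` is at least the infimum, in the
lattice of signed Radon measures on `Ω`, of the Riesz measures of the pairwise envelopes
`w_j ∧ w_k`.
-/

namespace Pool.Agent.Results.MP_730047_an.RieszEnvelope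

open Pool.Agent.Helper486.TP

/-- **The inequality `μ[⋀ w_j] ≥ ⋀_{j<k} μ[w_j ∧ w_k]`.** Let `Ω ⊆ ℝⁿ`, `n ≥ 1`, be open and
connected, let `w_1, …, w_m` (`m ≥ 2`) be δ-subharmonic in `Ω` and let `c > 0` be the normalising
constant of Riesz measures. Then `⋀ w_j` and all `w_j ∧ w_k` have Riesz measures; the Riesz measures
`ρ j k` of the `w_j ∧ w_k`, `j < k`, have a greatest lower bound in the order of signed Radon
measures on `Ω`; and every such greatest lower bound is at most the Riesz measure of `⋀ w_j`. -/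
theorem result (n : ℕ) (hn : 0 < n) (Ω : Set (E n)) (hΩ : IsOpen Ω) (hΩc : IsPreconnected Ω)
    (m : ℕ) (hm : 2 ≤ m) (w : Fin m → E n → EReal) (hw : ∀ j, DeltaSubharmonic Ω (w j))
    (c : ℝ) (hc : 0 < c) :
    (∃ μ, IsRiesz c Ω (fun x => ⨅ j, w j x) μ) ∧
    (∀ j k, ∃ ρ, IsRiesz c Ω (fun x => min (w j x) (w k x)) ρ) ∧
    ∀ (μ : SignedRadon Ω) (ρ : Fin m → Fin m → SignedRadon Ω),
      IsRiesz c Ω (fun x => ⨅ j, w j x) μ →
      (∀ j k, j < k → IsRiesz c Ω (fun x => min (w j x) (w k x)) (ρ j k)) →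
      (∃ I, IsGLB {κ | ∃ j k, j < k ∧ κ = ρ j k} I) ∧
      ∀ I, IsGLB {κ | ∃ j k, j < k ∧ κ = ρ j k} I → I ≤ μ :=
  riesz_envelope hn hΩ hΩc hm w hw hc

end Pool.Agent.Results.MP_730047_an.RieszEnvelope
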