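import Pool.Agent.R602.UU.Final

/-!
# Uniform ultrafilters on singular cardinals of equal cofinality

There is a countable transitive model `M` of ZF in which all successor cardinals are regular, with
two singular cardinals `l` and `m` of cofinality `ω`, such that `l` carries a uniform ultrafilter and
`m` carries none.

The transitive models `M` of ZF (`IsZF`) are defined in `Pool.Agent.W868.Defs`, the infinite
cardinals of `M` (`InfCard`), regular and successor cardinals (`Regular`, `IsSucc`) and
uniform ultrafilters (`UniUF`) in `M` are defined in `Pool.Agent.R602.UU.Stat`, and cofinality `ω`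
(`CofOmega`) in `Pool.Agent.R602.UU.Stat2`.
-/

set_option autoImplicit false

namespace Pool.Agent.Results.MP_790ce2_lc.EqualCofinality

open Pool.Agent.W868 Pool.Agent.R602.UU

theorem result : ∃ M : Set ZFSet.{0}, M.Countable ∧ IsZF M ∧
    (∀ μ κ, IsSucc M μ κ → Regular M κ) ∧
      ∃ l m, (InfCard M l ∧ ¬ Regular M l ∧ CofOmega M l ∧ ∃ D, UniUF M l D) ∧
        InfCard M m ∧ ¬ Regular M m ∧ CofOmega M m ∧ ¬ ∃ D, UniUF M m D :=
  final2

end Pool.Agent.Results.MP_790ce2_lc.EqualCofinality
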