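import Mathlib
import Pool.Agent.R433.SL.Final

set_option autoImplicit false

/-!
# Record prime gaps around all the proper minors of integer matrices of a given determinant

Let `f(Z) = log Z (log₂ Z)² log₄ Z / (log₃ Z)²`.  Let `A₀` be a square integer matrix of size
`n + 1` and of nonzero determinant, and let `q ≥ 1`.  For all large `Z` there is an integer matrix
`A` with the same determinant as `A₀`, congruent to `A₀` modulo `q`, with entries at most `Z` in
absolute value, such that for EVERY minor `M` of `A` of size `1, 2, …, n` (there are
`C(2n + 2, n + 1) - 2` of them, the entries are among them) all the integers `t` at distance at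
most `c f(Z)` from `M` are composite, with a prime factor `p ≤ |t| ^ (1/10)`.

The determinant itself is fixed, so the theorem is about all the minors for which the statement can
hold.  With `A₀ = 1` the matrices run through the congruence subgroup of level `q` of
`SL_(n + 1)(ℤ)`.

Method.  A product of elementary matrices around `A₀` gives polynomials `A(x)`, `x ∈ ℤ ^ d`, of
determinant `det A₀`, almost uniformly distributed among the matrices of determinant `det A₀` modulo
every large `p` (library `R433/SL`); the proper minors are pairwise independent enough modulo `p`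
for the criterion of the library, and a shift of the box makes all their values larger than a power
of `Z`.
-/

namespace Pool.Agent.Results.MP_7b323f_nt.MinorsOfMatrices

/-- `f Z = log Z (log₂ Z)² log₄ Z / (log₃ Z)²`. -/
noncomputable def f (Z : ℝ) : ℝ :=
  Real.log Z * (Real.log (Real.log Z)) ^ 2 * Real.log (Real.log (Real.log (Real.log Z))) /
    (Real.log (Real.log (Real.log Z))) ^ 2

/-- **Every residue class of integer matrices of a given nonzero determinant contains matrices all
of whose proper minors lie in the middle of prime gaps of record length.** -/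
theorem result (n q : ℕ) (hq : 0 < q) (A₀ : Matrix (Fin (n + 1)) (Fin (n + 1)) ℤ)
    (hA₀ : A₀.det ≠ 0) :
    ∃ c : ℝ, 0 < c ∧ ∃ Z₀ : ℝ, ∀ Z : ℕ, Z₀ ≤ Z → ∃ A : Matrix (Fin (n + 1)) (Fin (n + 1)) ℤ,
      A.det = A₀.det ∧ (∀ i j, |A i j| ≤ Z) ∧ (∀ i j, (q : ℤ) ∣ A i j - A₀ i j) ∧
      ∀ (k : ℕ) (r s : Fin k → Fin (n + 1)), 0 < k → k < n + 1 → StrictMono r → StrictMono s →
        ∀ t : ℤ, |(t : ℝ) - ((A.submatrix r s).det : ℤ)| ≤ c * f Z →
          ∃ p : ℕ, p.Prime ∧ (p : ℤ) ^ 10 ≤ |t| ∧ (p : ℤ) ∣ t :=
  Pool.Agent.R433.SL.slmain n q hq A₀ hA₀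

end Pool.Agent.Results.MP_7b323f_nt.MinorsOfMatrices
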