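import Pool.Agent.Q259.BW.Bij

/-!
# The Alperin–McKay–Navarro conjecture for odd primes and automorphisms of odd order: parity decides

`O` is a valuation subring of `ℂ` whose maximal ideal contains the odd prime `p`; it defines the
`p`-blocks of finite groups (`Pool/Agent/H254R3/IN`). The definitions are in `Pool/Agent/Q259/BW`
(`Main.lean`, `Cnt.lean`, `Bij.lean`).

* A datum `X : Dat` consists of a group `G`, a subgroup `D`, a set `B` of characters of `G` and a set
  `b` of characters of `N_G(D)`; `X.IsBrauer p O` says that `G` is finite, `B` is a `p`-block of `G`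
  with defect group `D`, and `b` is its Brauer correspondent. `X.ht0 p = Irr₀(B)` and
  `X.ht0' p = Irr₀(b)` are the sets of the characters of height zero.
* `X.Adm p S`: the elements `σ` of the set `S` of automorphisms of `ℂ` map `B` and `b` to themselves,
  and an odd power of each of them fixes all characters in `Irr₀(B)` and `Irr₀(b)` (for example, `σ`
  acts on the roots of unity of order dividing `|G|` with odd order).
* `X.Bij p Γ`: there is a bijection `Irr₀(B) → Irr₀(b)` commuting with all `σ ∈ Γ`.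
* `Fx S A` is the set of the characters in `A` fixed by all `σ ∈ S`.
* `X.wr` is the datum of the block `B ≀ C₂` of `G ≀ C₂` above `B ⊗ B`, with the defect group `D × D`
  and the Brauer correspondent `b ≀ C₂`.

Proof. If `S` is admissible for `X` and `D ≠ 1`, then it is admissible for `X.wr`, and the number `x` of
the fixed characters of height zero becomes `(x² + 3 x) / 2`, for `B` and for `b` (a character above
`χ ⊗ ψ`, `χ ≠ ψ`, is fixed if and only if `χ` and `ψ` are, because the action is odd). So if the two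
numbers are congruent modulo `2 ^ (a + 1)` for `X` and for `X.wr`, then they are congruent modulo
`2 ^ (a + 2)` for `X`. Equal numbers of fixed characters for all subgroups of `Γ` give an equivariant
bijection.
-/

set_option autoImplicit false

namespace Pool.Agent.Results.MP_7f1e7e_al.OddActionsParity

open Pool.Agent.Q259.BW

/-- **Parity decides.** Let `p` be an odd prime.
(1) Let `H` be any set of automorphisms of `ℂ`, for example Navarro's group of all `σ` for which there
is an `e ≥ 0` with `σ(ξ) = ξ ^ (p ^ e)` for all roots of unity `ξ` of order prime to `p`. For all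
`p`-blocks `B` of finite groups, with Brauer correspondents `b`, and all groups `Γ ⊆ H` which stabilise
`B` and `b` and whose elements act with odd order on `Irr₀(B)` and `Irr₀(b)` there is a
`Γ`-equivariant bijection `Irr₀(B) → Irr₀(b)`, if and only if for all these `B` and `Γ` the numbers of
the characters in `Irr₀(B)` and in `Irr₀(b)` fixed by `Γ` are congruent modulo `2`.
(2) For one block `B` with a nontrivial defect group and one group `Γ` of this kind there is a
`Γ`-equivariant bijection if and only if for all subgroups `Δ` of `Γ` and the (finitely many) `j` with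
`2 ^ j ≤ max (|Irr₀(B)|, |Irr₀(b)|)` the numbers of the `Δ`-fixed characters of height zero of the
`j`-th iterated wreath products with `C₂` of `B` and of `b` are congruent modulo `2`.
(3) The iterated wreath products are again blocks with nontrivial defect groups, and `Γ` is again
admissible for them. -/
theorem result (p : ℕ) [Fact p.Prime] (hp2 : p ≠ 2) (O : ValuationSubring ℂ)
    (hpO : (p : ℂ) ∈ O.nonunits) :
    (∀ H : Set (ℂ ≃+* ℂ),
      (∀ X : Dat, X.IsBrauer p O → ∀ Γ : Subgroup (ℂ ≃+* ℂ), (Γ : Set (ℂ ≃+* ℂ)) ⊆ H →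
        X.Adm p (Γ : Set (ℂ ≃+* ℂ)) → X.Bij p Γ) ↔
      ∀ X : Dat, X.IsBrauer p O → ∀ Γ : Subgroup (ℂ ≃+* ℂ), (Γ : Set (ℂ ≃+* ℂ)) ⊆ H →
        X.Adm p (Γ : Set (ℂ ≃+* ℂ)) →
        Nat.card (Fx (Γ : Set (ℂ ≃+* ℂ)) (X.ht0 p)) ≡
          Nat.card (Fx (Γ : Set (ℂ ≃+* ℂ)) (X.ht0' p)) [MOD 2]) ∧
    ∀ X : Dat, X.IsBrauer p O → X.D ≠ ⊥ → ∀ Γ : Subgroup (ℂ ≃+* ℂ),
      X.Adm p (Γ : Set (ℂ ≃+* ℂ)) →
      (X.Bij p Γ ↔ ∀ Δ : Subgroup (ℂ ≃+* ℂ), Δ ≤ Γ → ∀ j : ℕ,
        2 ^ j ≤ max (Nat.card (X.ht0 p)) (Nat.card (X.ht0' p)) →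
        Nat.card (Fx (Δ : Set (ℂ ≃+* ℂ)) ((Dat.wr^[j] X).ht0 p)) ≡
          Nat.card (Fx (Δ : Set (ℂ ≃+* ℂ)) ((Dat.wr^[j] X).ht0' p)) [MOD 2]) ∧
      ∀ j : ℕ, (Dat.wr^[j] X).IsBrauer p O ∧ (Dat.wr^[j] X).D ≠ ⊥ ∧
        (Dat.wr^[j] X).Adm p (Γ : Set (ℂ ≃+* ℂ)) :=
  ⟨fun H => all_blocks hp2 hpO H, fun X hX hne Γ hS => ⟨one_block hp2 hpO X hX hne Γ hS,
    fun j => levels_prop hp2 hpO _ j X hX hne hS⟩⟩

end Pool.Agent.Results.MP_7f1e7e_al.OddActionsParity
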