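import Pool.Agent.Q71.TM.Cnv

/-!
# Tate classes on products of powers of varieties with a maximal degeneration, or with K3 slopes

Let `W` be a Weil cohomology theory with an algebraically closed coefficient field on a class of
smooth proper varieties, and let `Γ` act on the cohomology of the varieties considered with the
formal properties of a Galois action (the example: varieties over a number field, or over any
finitely generated field `F`, and the Galois group of `F`; `χ` is the inverse of the cyclotomic
character).

Let `X_i` be varieties of even dimension for which homological and numerical equivalence coincide,
whose transcendental cohomology `T_i` (the orthogonal complement of all algebraic classes) is in the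
middle degree, irreducible under all subgroups of finite index, and of rank `r_i = 3` or `r_i ≥ 5`. For
every `i` one of the following holds (`TypeOn`).

* An element `g_i` of `Γ` acts on `T_i` with `(g_i - 1)^3 = 0`, `(g_i - 1)^2 ≠ 0` and `g_i - 1` of
  rank `2`. Example: an element of the inertia group at a place of maximal degeneration (type III
  reduction) of a K3 surface, or of a surface of any geometric genus whose local monodromy has the
  Jordan blocks `3, 1, ..., 1` on `T_i`.
* An element `F_i` of `Γ` (a Frobenius element) acts on `T_i` with the slopes `h + c`, `h - c`, once
  each, and `h` (ordinary K3 type), for a valuation of the coefficient field.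

The `T_i` are not isomorphic to each other up to a twist, for two indices with rank `8` the element (and
the valuation) is the same, and the cohomology of `Z` is generated by representations which are small
with respect to the `X_i` (for instance `Z` has good reduction at the place of `g_i`).

The theorem compares the Tate classes on `Z` and on the products of `Z` with arbitrary powers of the
`X_i`, also over given fields of definition.
-/

set_option autoImplicit false

universe u

namespace Pool.Agent.Results.MP_8abef2_ag.MaximalDegenerations

open Pool.Agent.H914 Pool.Agent.TH125.Gal Pool.Agent.Y127.G Pool.Agent.Q71.TM.P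

/-- **The Tate conjecture for products with powers of varieties with a maximal degeneration or with
ordinary K3 slopes.** Let `Y` be a product of `Z` and of powers `X_i ^ n_i`, `i ∈ S`, where
`n_i < r_i` for `i ∉ L` (`Tower`). The Tate conjecture for `Y` implies the Tate conjecture for `Z`; and
the Tate conjecture for `Z` implies, if `L = ∅`, the Tate conjecture for `Y` over all finite extensions
of the base field; for `L ≠ ∅` it implies the Tate conjecture for `Y` over a given field (with the
Galois group `Δ'`) if over a finite extension of this field (with the Galois group `Δ`), over which all
cycle classes on `Z` and the `X_i` are defined, no product of the discriminant characters of the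
`X_i`, `i ∈ L`, is trivial. -/
theorem result {k : Type u} [Field k] {𝒱 : VarClass k} {ops : CycleOps 𝒱}
    (W : WeilCohomology.{u, 0} ops) [IsAlgClosed W.K] (Γ : Type) [Group Γ] (D : Tw W.K Γ)
    (ι : Type) (l : ι → Loc W.K Γ) (r : ι → ℕ) (X : ι → GVar W Γ) (Z Y : GVar W Γ) (S L : Set ι)
    (hX : OrthFamily D l r X Z) (hY : Tower r X Z S L Y) (hG : GaloisType D Y) :
    (Tate D Y → Tate D Z) ∧
    (Tate D Z → ∀ Δ' : Subgroup Γ, Δ'.FiniteIndex →
      (L = ∅ ∨ ∃ Δ ≤ Δ', Δ.FiniteIndex ∧ (∀ i ∈ S, AlgDefined D Δ (X i)) ∧
        AlgDefined D Δ Z ∧ Q71.TM.P.IndepOn Δ (fun i => discr D (X i)) L) → TateOver D Δ' Y) :=
  final hX hY hG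

end Pool.Agent.Results.MP_8abef2_ag.MaximalDegenerations
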