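import Pool.Agent.Y880.RS.G5b

/-!
# Progressions of arguments in dense sets at which a polynomial plus a shift is prime

Let `f` be a nonconstant polynomial with integer coefficients, for example `x ^ 2 + x`, let `k ≥ 2`
and let `δ, ε > 0`.  Let `T` be a set of at least `δ N` arguments up to `N`, where `N` is between a
power of `log X` and `X ^ (1 / (4 deg f))`, and let `P` be a set of at least `δ X / log X` primes up
to `X`.  Then for a positive proportion of the shifts `b ≤ X` there is a progression of `k` elements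
of `T`, with common difference at most `N ^ ε (log X) ^ B`, at all of which `f + b` takes a value
in `P`.

This is `Pool.Agent.Y880.RS.G5.g5` of the starting library (helper880), which is in no hand-in.
-/

set_option autoImplicit false

namespace Pool.Agent.Results.MP_8be758_nt.PolynomialShifts

open Finset Polynomial

theorem result (f : ℤ[X]) (hf : f.natDegree ≠ 0) (k : ℕ) (hk : 2 ≤ k) (δ ε : ℝ) (hδ : 0 < δ)
    (hε : 0 < ε) (hε1 : ε ≤ 1) :
    ∃ B : ℕ, ∃ c : ℝ, 0 < c ∧ ∃ X₀ : ℕ, ∀ X N : ℕ, X₀ ≤ X → Real.log X ^ B ≤ N →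
      N ^ (4 * f.natDegree) ≤ X →
      ∀ T ⊆ Icc 1 N, δ * N ≤ T.card →
      ∀ P ⊆ Icc 1 X, (∀ p ∈ P, p.Prime) → δ * (X / Real.log X) ≤ P.card →
      ∃ G ⊆ Icc 1 X, c * X ≤ G.card ∧ ∀ b ∈ G, ∃ n r : ℕ,
        1 ≤ r ∧ (r : ℝ) ≤ (N : ℝ) ^ ε * Real.log X ^ B ∧
        ∀ j < k, n + j * r ∈ T ∧ ∃ p ∈ P, (p : ℤ) = f.eval ((n + j * r : ℕ) : ℤ) + b :=
  Pool.Agent.Y880.RS.G5.g5 f hf k hk δ ε hδ hε hε1

end Pool.Agent.Results.MP_8be758_nt.PolynomialShifts
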