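import Pool.Agent.R937.TZ.Geo

/-!
# The Tate conjecture for all products of abelian varieties of dimension at most three over finite
fields is a question on classes of codimension two

Let `p` be a prime number. The abelian varieties over finite fields of characteristic `p` are modelled
as follows (`RedAV p ν`): by the theorems of Honda and Tate each of them is isogenous, over an algebraic
closure, to the reduction of a finite product `X` of abelian varieties with complex multiplication by
CM fields `E i`, with Frobenius elements `π i ∈ E i` that satisfy the formula of Shimura and Taniyama;
the Tate module with coefficients in the algebraically closed field `Ω` (an algebraic closure of `ℚ_ℓ`,
or of the field of coefficients of crystalline cohomology if `ℓ = p`) is `TM Ω Y = Ω ⊗ H_1(X, ℚ)`, with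
the Frobenius endomorphism `π`, and the cohomology classes are the alternating forms on it. All simple
factors of `Y` have dimension at most three if and only if `[E i : ℚ] ≤ 6` for all `i` (for a suitable
choice of `X`).

Let `𝒜` be a system of classes of these abelian varieties with the formal properties of the
algebraic classes (`TSys`): it contains the classes of degree zero and the Tate classes of degree
two over finite extensions (divisors, Tate), and it is stable under linear combinations, cup products,
pull-backs along homomorphisms, and push-forwards along projections.

**Theorem.** The following assertions are equivalent.

1. (`AllT`) The Tate conjecture for **all** products `Y` of abelian varieties of dimension at most three
   over finite fields of characteristic `p` — any number of factors, any multiplicities, any Newton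
   polygons, all codimensions, over all finite extensions: all Tate classes on `Y` belong to `𝒜`.
2. (`FourT`) The Tate conjecture for the classes of **codimension two** on the products of **at most four**
   abelian varieties of dimension at most three.
3. (`FourH`) The reductions of the **Hodge classes of degree four** on the products of at most four
   abelian varieties of CM type of dimension at most three belong to `𝒜`.

(In 2. and 3. four factors, so the dimension is at most twelve.) In particular the Hodge conjecture for
the Hodge classes of degree four on products of at most four CM abelian varieties of dimension at most
three implies the Tate conjecture for all products of abelian varieties of dimension at most three
over all finite fields. Applied to the smallest system `𝒜` which contains these reductions the theorem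
says that **all Tate classes on all these products are generated by divisors and by reductions of Hodge
classes of degree four on products of at most four CM abelian varieties**, unconditionally.

The starting results (`UpToDimensionFive`, `FiveAndSurfacesTimesVarieties`, and
`MP_223b32_ag.NonOrdinaryThreefolds`) give the Tate conjecture for products of threefolds only if any two
of the threefolds whose CM fields have the same Galois closure are related in special ways. There
is no such restriction here.

Idea of the proof: the Frobenius eigenvalues, up to roots of unity, are given by averages, over a
decomposition group `D` in the Galois group of a CM field, of sign functions with a stabilizer of index
at most six. One shows that **all** linear relations between such averages, for all groups `D`, are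
generated by the following ones: opposite functions (divisors), relations between four sign functions
before averaging (Hodge classes of degree four on a product of four CM abelian varieties), and
coincidences and zeros of averages (homomorphisms between the reductions, and supersingular ones; both
are given by Tate classes of degree two).
-/

namespace Pool.Agent.Results.MP_950c68_ag.DimensionAtMostThree

open Pool.Agent.R937.TZ

/-- **The Tate conjecture for all products of abelian varieties of dimension at most three over
finite fields is equivalent to the Tate conjecture in codimension two for the products of at most four of
them, and to the algebraicity of the reductions of the Hodge classes of degree four on products of at
most four abelian varieties of CM type of dimension at most three.** -/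
theorem result (p : ℕ) [Fact p.Prime] (ν : PadicAlgCl p ≃+* ℂ) (Ω : Type) [Field Ω] [CharZero Ω]
    [IsAlgClosed Ω] (𝒜 : TSys p ν Ω) : List.TFAE [AllT 𝒜, FourT 𝒜, FourH 𝒜] :=
  tfae

end Pool.Agent.Results.MP_950c68_ag.DimensionAtMostThree
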