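import Pool.Agent.X310.Cen

/-!
# The Künneth standard conjecture as an extremal problem for two cycles

Let `X` be a smooth proper variety of dimension `n` and `W` a Weil cohomology theory. A trace cycle
of `X` is a cycle `w` of codimension `n` on `X × X` whose intersection number with the transpose of
`b` is the sum of the traces of `b` on all `H^j(X)`, without signs, for all cycles `b` of
codimension `n`; a weight cycle is a cycle `c` for which this number is
`∑_j (-1)^j (j - n) Tr(b | H^j(X))`. Both are unique up to numerical equivalence, if they exist. We
prove the inequality `∑_j b_j(X) ≤ w · ᵗ(w ∘ w)` and, if it is an equality, the inequality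
`w · ᵗ(c ∘ c) ≤ ∑_j (j - n)² b_j(X)`. All Künneth components of the diagonal are algebraic if and
only if there are a trace cycle and a weight cycle and both inequalities are equalities.
-/

open Pool.Agent.H914 Pool.Agent.H447 Pool.Agent.X310

universe u v

namespace Pool.Agent.Results.MP_a60482_ag.TraceAndWeightCycles

/-- **The Künneth components of the diagonal of `X` are algebraic if and only if there are a trace
cycle `w` and a weight cycle `c` of `X` with `w · ᵗ(w ∘ w) = ∑_j b_j(X)` and
`w · ᵗ(c ∘ c) = ∑_j (j - n)² b_j(X)`.** For arbitrary `w` and `c`, the first number is at least the
sum of the Betti numbers, and if they are equal then the second number is at most the weighted sum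
of the Betti numbers, with equality if and only if the conjecture holds for `X`. -/
theorem result {k : Type u} [Field k] {𝒱 : VarClass k} {ops : CycleOps 𝒱}
    (W : WeilCohomology.{u, v} ops) (X : 𝒱.Obj) :
    (KunnethStd W X ↔ ∃ w c, RepresentsTrace W X w ∧ RepresentsWeight W X c ∧
      interT ops X w (compCyc ops w w) = totalBetti W X ∧
      interT ops X w (compCyc ops c c) = totalWeight W X) ∧
    ∀ w c, RepresentsTrace W X w → RepresentsWeight W X c →
      totalBetti W X ≤ interT ops X w (compCyc ops w w) ∧
      (interT ops X w (compCyc ops w w) = totalBetti W X →
        interT ops X w (compCyc ops c c) ≤ totalWeight W X ∧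
          (interT ops X w (compCyc ops c c) = totalWeight W X ↔ KunnethStd W X)) :=
  kunneth_main

end Pool.Agent.Results.MP_a60482_ag.TraceAndWeightCycles
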