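import Mathlib
import Pool.Agent.R389.RatMain2

/-!
# Deligne's conjecture for the rational Artin twists when the order of vanishing is at most two

Let `M` be a pure motive over `ℚ` with rational coefficients, critical at the integer `c` (one can
replace `M` by `M(c)`, and `c` by `0`), and let `K/ℚ` be a Galois extension with the group `G`. Let
`E` be a number field which contains the roots of unity of order the exponent of `G`.

* `L χ`, for an irreducible complex character `χ` of `G`, is the L-function of the twist of `M` by
  `χ`. Since `M` has rational coefficients it does not depend on an embedding of `E`.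
* `P τ χ`, for an embedding `τ` of `E`, is the component at `τ` of the period of `M ⊗ χ'`, where `χ'` is
  the Artin motive over `E` with `τ ∘ χ' = χ`.

L-functions and periods of direct sums are products. For a rational representation `ρ` of `G` the
motive `M ⊗ ρ` has rational coefficients; its period `Ω = c⁺(M ⊗ ρ)` is a complex number, given up to
a rational factor. After the extension of the coefficients to `E` it is the product of the periods
`P τ χ` over the irreducible constituents, up to a factor `u` in `E`.

The theorem is the assertion `L(M ⊗ ρ, c) ∈ ℚ Ω` for all rational `ρ`, in particular for all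
permutation representations, assuming Deligne's conjecture for the twists of `M` by the monomial
characters `Ind_U^G ψ` (that is, for the twists of the base change of `M` to the subfields of `K`
by Hecke characters of finite order), if `L(M/K, s)` has at most a double zero at `c`. If there are no
zeros it follows from Brauer's theorem on induced characters; but this theorem needs quotients of
L-values, and these may be zero.

The proof is that of the starting library file `Pool/Agent/R389/RatMain2.lean`.
-/

set_option autoImplicit false

open Pool.Agent.H302R2 Pool.Agent.H541R3.ART Pool.Agent.R389 Filter Topology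

namespace Pool.Agent.Results.MP_b696eb_nt.RationalTwistsOrderTwo

/-- The L-functions and the periods at `c` of the twists of a motive with rational coefficients by
the irreducible characters of the finite group `G`, for the embeddings `τ` of the field `E`. -/
structure TwistData (G : Type) [Group G] (E : Type) [Field E] (c : ℂ) where
  /-- the L-function of the twist by `χ` -/
  L : (G → ℂ) → ℂ → ℂ
  /-- the period of the twist by `χ` -/
  P : (E →+* ℂ) → (G → ℂ) → ℂ
  /-- the L-functions are meromorphic at `c` and not identically zero near `c` -/
  mero : ∀ χ ∈ Irr G, MeromorphicAt (L χ) c ∧ meromorphicOrderAt (L χ) c ≠ ⊤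
  /-- the periods are not zero -/
  period : ∀ τ, ∀ χ ∈ Irr G, P τ χ ≠ 0

variable {G : Type} [Group G] {E : Type} [Field E] {c : ℂ}

/-- Deligne's conjecture for the twist by the representation over `E` with the character `f`. -/
def TwistData.Holds (D : TwistData G E c) (f : G → E) : Prop := Deligne (fun _ => D.L) D.P c f

/-- the L-function of the twist by the complex representation which contains `m χ` times the
irreducible representation with the character `χ` -/
noncomputable def TwistData.lfun (D : TwistData G E c) (m : (G → ℂ) → ℕ) (s : ℂ) : ℂ :=
  ∏ᶠ χ ∈ Irr G, D.L χ s ^ m χ

/-- **Deligne's conjecture for rational Artin twists, order at most two.** Suppose that the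
conjecture holds at `c` for the twists by all monomial characters `Ind_U^G ψ` of `G`, and that the
L-function of the base change to `K` (the twist by the regular representation, which contains `χ`
with the multiplicity `χ(1)`) has at most a double zero at `c`. Let `ρ` be a representation of `G` over
`ℚ`, containing `χ` with the multiplicity `m χ`, let `L(M ⊗ ρ, s)` have no pole at `c`, and let `Ω` be its
period. Then `L(M ⊗ ρ, c)` is a rational multiple of `Ω`. -/
theorem result (G : Type) [Group G] [Finite G] (E : Type) [Field E] [NumberField E] (ζ : E)
    (hζ : IsPrimitiveRoot ζ (Monoid.exponent G)) (c : ℂ) (D : TwistData G E c)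
    (hmon : ∀ (U : Subgroup G) (ψ : U →* Eˣ), D.Holds (ind U (fun u => ((ψ u : Eˣ) : E))))
    (d : (G → ℂ) → ℕ) (hd : ∀ χ ∈ Irr G, χ 1 = d χ) (hz : meromorphicOrderAt (D.lfun d) c ≤ 2)
    (V : Type) [AddCommGroup V] [Module ℚ V] [FiniteDimensional ℚ V] (ρ : Representation ℚ G V)
    (m : (G → ℂ) → ℕ) (hm : IsDecomp (fun g => ((ρ.character g : ℚ) : ℂ)) m)
    (hpole : 0 ≤ meromorphicOrderAt (D.lfun m) c)
    (Ω : ℂ) (u : E) (hΩ : ∀ τ : E →+* ℂ, ∏ᶠ χ ∈ Irr G, D.P τ χ ^ m χ = τ u * Ω) :
    ∃ q : ℚ, Tendsto (D.lfun m) (𝓝[≠] c) (𝓝 (q * Ω)) :=
  main_rat' hζ D.mero D.period hmon hd hz ρ hm hpole hΩ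

end Pool.Agent.Results.MP_b696eb_nt.RationalTwistsOrderTwo
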