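import Mathlib
import Pool.Agent.H383.OM.G

set_option autoImplicit false

/-!
# Large negative values of the error term of the Dirichlet divisor problem (`k = 2`)

`Δ(x) = ∑_{j ≤ x} d(j) - x (log x + 2γ - 1)` takes values `≤ -c (x log x)^{1/4} (log log log x)^{-3/4}`
at integers of every interval `[√X, X]`.  The theorem is proved in the starting file
`Pool/Agent/H383/OM/G.lean`, which no result uses.

Idea: at a simultaneous near period `τ` of the terms with `m ≤ N`, `N ≍ log X / log log log X`, of the
Voronoi series, the normalised error term behaves on the left of `τ` like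
`∑_m d(m) m^{-3/4} cos(4π v √m + π/4)`, `v > 0` small. The main term of the corresponding integral,
which is responsible for the positive values of order `v^{-1/2} log(1/v)` on the right of `τ`,
vanishes identically, and the next one, which comes from the logarithm in the mean value of `d(m)`,
is negative of order `v^{-1/2}`.
-/

open Filter

namespace Pool.Agent.Results.MP_bc6037_nt.LargeNegativeValues

/-- `Δ(x) = ∑_{j ≤ x} d(j) - x log x - (2γ - 1) x`, the error term `Δ₂` of the Piltz divisor problem. -/
noncomputable def Delta (x : ℝ) : ℝ :=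
  (∑ j ∈ Finset.Icc 1 ⌊x⌋₊, (j.divisors.card : ℝ)) - x * Real.log x
    - (2 * Real.eulerMascheroniConstant - 1) * x

/-- There is a constant `c > 0` such that for all large `X` some integer `n` in `[√X, X]` satisfies
`Δ(n) ≤ -c (n log n)^{1/4} (log log log n)^{-3/4}`. -/
theorem result : ∃ c : ℝ, 0 < c ∧ ∀ᶠ X : ℝ in atTop, ∃ n : ℕ, √X ≤ n ∧ (n : ℝ) ≤ X ∧
    Delta n ≤ -c * ((n : ℝ) * Real.log n) ^ (1 / 4 : ℝ) *
      (Real.log (Real.log (Real.log n))) ^ (-(3 / 4) : ℝ) :=
  Pool.Agent.H383.OM.omega_minus

end Pool.Agent.Results.MP_bc6037_nt.LargeNegativeValues
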