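import Pool.Agent.Y221.CF.Abu

/-!
MP_c2a5fc_ag, Q1: Kodaira dimension and numerical dimension for all projective manifolds which are
dominated, with bounded degree, by systems of high powers.

`HighPowers s N F`: the `F e` are sums of at most `s` powers of linear forms, or forms with at most
`s` monomials and divisible exponents, where the exponents (and divisors) are at least `N`. `K`, `y`
are the function field and the generic point of an irreducible component `V` of dimension `w` of
`{F = 0}`. For a projective manifold `M` of dimension `w` with function field `L`:
`GeneralType k L w` means `κ(M) = w`; `KodGe k L w (fun _ => False) 0` means `κ(M) ≥ 0`;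
`Psef k L w (fun _ => False)` means that `K_M` is pseudo-effective (which holds if `K_M` is nef);
`NumNeg k L w (fun _ => False)` means that for every divisor `A` the divisors `j K_M + A`, `j`
large, have no sections (`ν(M) = -∞`).
-/

set_option autoImplicit false
set_option linter.overlappingInstances false

namespace Pool.Agent.Results.MP_c2a5fc_ag.HighPowerImages

open Pool.Agent.W602.GT (GeneralType Psef KodGe Ruled HighPowers SubVar IsComponent)
open Pool.Agent.W619.PQ (IsUniruled)
open Pool.Agent.W619.TW (NumNeg)

/-- Let `V` be an irreducible component, of dimension `w ≥ 1`, of a projective variety given by sums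
of at most `s` powers of linear forms, or by forms with at most `s` monomials and divisible
exponents, and let the exponents be at least `N ≥ r w (s + 4) (s - 1) (s - 2) / 2`. Let `M` be a
projective manifold with a dominant rational map `V ⇢ M` of degree at most `r` (an arbitrary one;
for instance, `M` may be a resolution of the quotient of `V` by a group of at most `r` birational
automorphisms). The following are equivalent: `K_M` is pseudo-effective; `κ(M) ≥ 0`; `κ(M) = w`; `M`
is not uniruled; `V` is not ruled. Otherwise `ν(M) = -∞`. So `κ(M) = ν(M)`. -/
theorem result {k : Type} [Field k] [CharZero k] [IsAlgClosed k] {n : ℕ} {ι : Type}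
    {F : ι → MvPolynomial (Fin (n + 1)) k} {s N w r : ℕ} (hF : HighPowers s N F) (hN1 : 1 ≤ N)
    (hw : 1 ≤ w) (hN : r * (w * ((s + 4) * ((s - 1) * (s - 2) / 2))) ≤ N) {K L : Type} [Field K]
    [Field L] [Algebra k K] [Algebra k L] [Algebra L K] [IsScalarTower k L K]
    [FiniteDimensional L K] {y : Fin (n + 1) → K} (hy : SubVar F K w y)
    (hcomp : IsComponent F y) (hr : Module.finrank L K ≤ r) :
    [Psef k L w (fun _ => False), KodGe k L w (fun _ => False) 0, GeneralType k L w,
      ¬ IsUniruled k L w, ¬ Ruled k K].TFAE ∧
    (¬ Psef k L w (fun _ => False) → NumNeg k L w (fun _ => False)) :=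
  Pool.Agent.Y221.CF.abu_comp hF hN1 hw hN hy hcomp hr

end Pool.Agent.Results.MP_c2a5fc_ag.HighPowerImages
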