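import Pool.Agent.X271.TmFin

/-!
# Approximation for images of multiprojective complete intersections over all perfectoid fields

The setting and the notions `Tilting`, `BaseField`, `IsConeOver`, `DimGE`, `DimLEOver`, `Approximable` are
those of `AllPerfectoidFields` (starting point): `K` is a perfectoid field of characteristic `0` and
residue characteristic `p`, `E = K♭` its tilt, `C` the completion of an algebraic closure of `K`, and
`F = C♭`, which contains `E`. `Tilting p C F` consists of the absolute values, of the map `x ↦ x♯` from
`F` to `C` and of Fontaine's map `θ` from `W(O_F)` onto `O_C`; `BaseField T K E` says that `E` is perfect,
contains an element of absolute value `|p|`, and that `θ` maps `W(O_E)` onto `O_K`. These are well-known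
facts for every perfectoid field `K`, and nothing else is used.

A closed subset of `ℙ^n` is given by the set of the points over `C` (or `F`) of its cone. `IsConeOver K X`:
`X` is closed and defined over `K`. `DimGE X d`, `DimLEOver K X d`: the dimension is at least `d` (any `d` forms
have a common zero on it), at most `d` (some `d + 1` forms over `K` have none). `Approximable T K E X d` is
Q1 for `X`, if `d` is its dimension: for all homogeneous `P 1, ..., P r` over `K` of degrees
`D 1, ..., D r` which vanish on `X` and all `ε > 0` there is a closed `Y` of dimension `d` in `ℙ^n_E`, defined
over `E`, such that `|P k (y♯)| ≤ ε ‖y‖ ^ D k` for all points `y` of `Y` over `F` and all `k`. (If the `P k`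
generate the ideal of `X`, these tubes are a basis of the neighbourhoods of `X` in the adic space.)

Let `h 1, ..., h c` be multihomogeneous polynomials over `K` (`MultiHom`), of arbitrary and different
multidegrees `a 1, ..., a c`, on the product of the projective spaces of dimensions `m 1, ..., m r`, and
let `V` be the set of their common zeros. Let `f` consist of `n + 1` multihomogeneous polynomials over `K`
of the same multidegree `D ≠ 0` without common zeros on `V` (`BaseFree C h f`; some of the components of `D`
may be zero). Then `mimage C h f` is the cone over `X = f(V)`, a closed subset of `ℙ^n`. Finally
`Positive m a D d` says that the multidegrees `a j` and `d` copies of `D` can be assigned to factors of the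
product in which they are positive, such that at most `m κ` of them are assigned to the factor
`κ`. Equivalently, the product of the classes `a 1, ..., a c` and of the `d`-th power of the class `D` in
the Chow ring of the product of projective spaces is not zero.

Theorem. If `Positive m a D d` and the dimension of `X = f(V)` is at most `d`, then `X` is closed, defined
over `K`, of dimension `d`, and Q1 holds over `K` for `X`, and more generally for every closed subset of
dimension `d` of `ℙ^n` which contains `X`, for instance for all finite unions of such `X`.

For `r = 1` this is `AllPerfectoidFields` (starting point). For `K = ℂ_p` it is
`ImagesOfCompleteIntersections` (starting point). The new point is that `K` is an arbitrary perfectoid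
field and that the approximating varieties are defined over its tilt `K♭`, as Q1 requires, and as it is
needed for the weight-monodromy conjecture. `ToricSectionsAndStability` and `Products` (starting points)
contain the case that all `a j` and `D` are multiples of the same multidegree with positive components.
`DeterminantalVarieties` (starting point) contains the case `r = 2`, `h j` linear in the second group of
variables, `c > m 2 > 0`, `f = (x_0, ..., x_n)`, the projection to the first factor.

Remarks (not part of the formal statement). Some new examples, over every perfectoid field `K`: all
complete intersections in products of projective spaces by equations of arbitrary multidegrees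
(for instance, curves in `ℙ^1 × ℙ^1 × ℙ^1` given by two equations, surfaces in `ℙ^2 × ℙ^2` given by
two equations of bidegrees such as `(1, 3)` and `(2, 1)`), in all embeddings by multihomogeneous
polynomials; the images of the projections of complete intersections to a factor, such as the
resultants and discriminants: the set of the systems of `s > k` forms of given degrees in `k + 1`
variables with a common zero, and its sections by linear spaces or complete intersections of the
expected dimension; the set of the forms of degree `e` in `k + 1` variables which are products of
forms of degrees `e_1, ..., e_r` with given multiplicities (such as the coincident root loci, `k = 1`, and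
the Chow varieties of the forms which are products of linear forms).

The proof is the project `Pool.Agent.X271.TN` of the starting helper files, whose main theorem was not
handed in before. For every `h j` there is a multihomogeneous polynomial `H j` over `E`, and for every
`f i` a monic polynomial `G i` in one variable whose coefficients are multihomogeneous over `E` of
multidegrees which are multiples of `D`, such that `h j (z♯)` is small if `H j (z) = 0` and `y♯` is close to
`f i (z♯)` if `G i (z)(y) = 0` (`approxW`, `monE`). Let `Y` be the set of the `y` in `F^(n+1)` such that
`H j (z) = 0` and `G i (z)(y_i) = 0` for some `z` in the product of projective spaces (`Img`). By the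
Nullstellensatz over `C` the coordinates `y_i` are not all small for normalised `z` (`core`, `key`), hence
`Y` lies in the given tubes, and `Y` is closed and defined over `E` (`img_cone`). The positivity condition
gives the lower bound for the dimension of `Y` (`img_dimGE`), and the dimension is at most `d` because of
the forms over `E` which approximate `d + 1` forms without common zeros on `X`.
-/

set_option autoImplicit false

namespace Pool.Agent.Results.MP_db3ab1_ag.MultiprojectiveImages

open MvPolynomial Pool.Agent.Y129.TA Pool.Agent.Y129.TB Pool.Agent.X271.TN

/-- Q1 holds for the images of multiprojective complete intersections (with arbitrary multidegrees)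
over the perfectoid field `K`, with approximating varieties defined over `E = K♭`. -/
theorem result {p : ℕ} [Fact p.Prime] {C F K E : Type} [Field C] [Field F] [CharP F p] [Field K]
    [Field E] [Algebra K C] [Algebra E F] [IsAlgClosed C] [IsAlgClosed F] (T : Tilting p C F)
    (B : BaseField T K E) {r c n d : ℕ} {m : Fin r → ℕ}
    {h : Fin c → MvPolynomial (Crd m) K} {a : Fin c → Fin r → ℕ}
    {f : Fin (n + 1) → MvPolynomial (Crd m) K} {D : Fin r → ℕ}
    (hh : ∀ j, MultiHom (h j) (a j)) (hf : ∀ i, MultiHom (f i) D) (hD : D ≠ 0)
    (h0 : BaseFree C h f) (hpos : Positive m a D d) (hX : DimLEOver K (mimage C h f) d) :
    IsConeOver K (mimage C h f) ∧ DimGE (mimage C h f) d ∧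
      ∀ X : Set (Fin (n + 1) → C), mimage C h f ⊆ X → Approximable T.toTiltPair K E X d :=
  main T B hh hf hD h0 hpos hX

end Pool.Agent.Results.MP_db3ab1_ag.MultiprojectiveImages
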