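import Pool.Agent.TH658.Dg.TMain

/-!
# Algebraic proofs of the non-isomorphism of tournaments

There is a constant `C` such that for every `d ≥ 1` there are two non-isomorphic tournaments on at
most `C d` vertices whose non-isomorphism is refuted in degree `d` neither by the polynomial calculus
over any field (of any characteristic) nor by the Positivstellensatz calculus over the reals.
-/

set_option autoImplicit false

namespace Pool.Agent.Results.MP_f1a348_lc.TournamentProofs

open Pool.Agent.TH658.Dg

theorem result : ∃ C : ℕ, ∀ d : ℕ, 1 ≤ d →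
    ∃ (V : Type) (_ : Fintype V) (T T' : V → V → Prop),
      Fintype.card V ≤ C * d ∧ IsTournament T ∧ IsTournament T' ∧
      (¬ ∃ φ : V ≃ V, ∀ x y, T x y ↔ T' (φ x) (φ y)) ∧
      (∀ (K : Type) [Field K], ¬ PCRefutes K T T' d) ∧ ¬ PosRefutes T T' d :=
  ⟨10 ^ 18, mainProofs⟩

end Pool.Agent.Results.MP_f1a348_lc.TournamentProofs
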